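import Mathlib

/-! A pair of orthogonal bricks with independent derivations gives a full exact functor from
families of operators to modules. -/

namespace Pool.Agent.Helper45.Wild

universe u

open TensorProduct

theorem exists_dual_ne {K : Type u} [Field K] {V : Type u} [AddCommGroup V] [Module K V] {v : V}
    (hv : v ≠ 0) : ∃ ψ : V →ₗ[K] K, ψ v ≠ 0 := by
  by_contra hcon
  push Not at hcon
  exact hv ((Module.forall_dual_apply_eq_zero_iff K v).1 hcon)

/-- A pair of orthogonal bricks over `R` with a family of derivations, linearly independent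
modulo inner ones. -/
structure BrickPair (K : Type u) [Field K] (R : Type u) [Ring R] [Algebra K R]
    (ι : Type) [Fintype ι] where
  N₁ : Type u
  N₂ : Type u
  [acg₁ : AddCommGroup N₁]
  [acg₂ : AddCommGroup N₂]
  [mK₁ : Module K N₁]
  [mK₂ : Module K N₂]
  [mR₁ : Module R N₁]
  [mR₂ : Module R N₂]
  [st₁ : IsScalarTower K R N₁]
  [st₂ : IsScalarTower K R N₂]
  D : ι → R →ₗ[K] (N₁ →ₗ[K] N₂)
  D_mul : ∀ i s t n, D i (s * t) n = s • D i t n + D i s (t • n)
  brick₁ : ∀ f : N₁ →ₗ[R] N₁, ∃ c : K, ∀ n, f n = c • n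
  brick₂ : ∀ f : N₂ →ₗ[R] N₂, ∃ c : K, ∀ n, f n = c • n
  hom₁₂ : ∀ f : N₁ →ₗ[R] N₂, f = 0
  hom₂₁ : ∀ f : N₂ →ₗ[R] N₁, f = 0
  indep : ∀ c : ι → K, (∃ b : N₁ →ₗ[K] N₂, ∀ s n, ∑ i, c i • D i s n = s • b n - b (s • n)) →
    c = 0
  ne₁ : Nontrivial N₁
  ne₂ : Nontrivial N₂

attribute [instance] BrickPair.acg₁ BrickPair.acg₂ BrickPair.mK₁ BrickPair.mK₂ BrickPair.mR₁
  BrickPair.mR₂ BrickPair.st₁ BrickPair.st₂

section Contraction

variable {K : Type u} [Field K]

/-- contraction of the second tensor factor -/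
noncomputable def ctr (N : Type u) [AddCommGroup N] [Module K N] {U : Type u} [AddCommGroup U]
    [Module K U] (ψ : U →ₗ[K] K) : (N ⊗[K] U) →ₗ[K] N :=
  (TensorProduct.rid K N).toLinearMap ∘ₗ (ψ.lTensor N)

variable {N N' : Type u} [AddCommGroup N] [Module K N] [AddCommGroup N'] [Module K N']
  {U U' : Type u} [AddCommGroup U] [Module K U] [AddCommGroup U'] [Module K U']

@[simp] theorem ctr_tmul (ψ : U →ₗ[K] K) (n : N) (u : U) : ctr N ψ (n ⊗ₜ u) = ψ u • n := by
  simp [ctr]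

theorem ctr_rTensor (ψ : U →ₗ[K] K) (g : N →ₗ[K] N') (z : N ⊗[K] U) :
    ctr N' ψ (g.rTensor U z) = g (ctr N ψ z) := by
  induction z with
  | zero => simp
  | tmul n u => simp
  | add x y hx hy => simp only [map_add, hx, hy]

theorem ctr_map (ψ : U' →ₗ[K] K) (g : N →ₗ[K] N') (h : U →ₗ[K] U') (z : N ⊗[K] U) :
    ctr N' ψ (TensorProduct.map g h z) = g (ctr N (ψ ∘ₗ h) z) := by
  induction z with
  | zero => simp
  | tmul n u => simp
  | add x y hx hy => simp only [map_add, hx, hy]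

theorem ctr_ext {z : N ⊗[K] U} (h : ∀ ψ : U →ₗ[K] K, ctr N ψ z = 0) : z = 0 := by
  classical
  let b := Module.Basis.ofVectorSpace K U
  have key : ∀ (z : N ⊗[K] U) i, TensorProduct.equivFinsuppOfBasisRight b z i =
      ctr N (b.coord i) z := by
    intro z i
    induction z with
    | zero => simp
    | tmul n u => simp [TensorProduct.equivFinsuppOfBasisRight_apply_tmul_apply]
    | add x y hx hy => simp only [map_add, Finsupp.add_apply, hx, hy]
  apply (TensorProduct.equivFinsuppOfBasisRight (M := N) b).injective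
  ext i
  rw [key, h, map_zero]; rfl

theorem lid_rTensor_ctr (ψ : U →ₗ[K] K) (ν : N →ₗ[K] K) (z : N ⊗[K] U) :
    ψ (TensorProduct.lid K U (ν.rTensor U z)) = ν (ctr N ψ z) := by
  induction z with
  | zero => simp
  | tmul n u => simp [mul_comm]
  | add x y hx hy => simp only [map_add, hx, hy]

variable {R : Type u} [Ring R] [Algebra K R]

/-- the action of an element, as a linear map -/
noncomputable def lact (N : Type u) [AddCommGroup N] [Module K N] [Module R N]
    [IsScalarTower K R N] (s : R) : N →ₗ[K] N := Algebra.lsmul K K N s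

@[simp] theorem lact_apply (N : Type u) [AddCommGroup N] [Module K N] [Module R N]
    [IsScalarTower K R N] (s : R) (n : N) : lact (K := K) N s n = s • n := rfl

variable [Module R N] [IsScalarTower K R N] [Module R N'] [IsScalarTower K R N']

theorem orth_tensor (C : (N ⊗[K] U) →ₗ[K] (N' ⊗[K] U'))
    (hC : ∀ (s : R) z, C ((lact (K := K) N s).rTensor U z) = (lact (K := K) N' s).rTensor U' (C z))
    (h0 : ∀ f : N →ₗ[R] N', f = 0) : C = 0 := by
  apply TensorProduct.ext'
  intro n u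
  rw [LinearMap.zero_apply]
  apply ctr_ext
  intro ψ
  let f : N →ₗ[R] N' :=
    { toFun := fun n => ctr N' ψ (C (n ⊗ₜ u))
      map_add' := fun x y => by rw [TensorProduct.add_tmul, map_add, map_add]
      map_smul' := fun s n => by
        have h1 := hC s (n ⊗ₜ u)
        rw [LinearMap.rTensor_tmul, lact_apply] at h1
        rw [h1, ctr_rTensor]; rfl }
  have := h0 f
  exact congrArg (fun g => g n) this

theorem brick_tensor [Nontrivial N] (A : (N ⊗[K] U) →ₗ[K] (N ⊗[K] U'))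
    (hA : ∀ (s : R) z, A ((lact (K := K) N s).rTensor U z) = (lact (K := K) N s).rTensor U' (A z))
    (hb : ∀ f : N →ₗ[R] N, ∃ c : K, ∀ n, f n = c • n) :
    ∃ h : U →ₗ[K] U', ∀ n u, A (n ⊗ₜ u) = n ⊗ₜ h u := by
  obtain ⟨n₀, hn₀⟩ := exists_ne (0 : N)
  obtain ⟨ν, hν⟩ : ∃ ν : N →ₗ[K] K, ν n₀ = 1 := by
    obtain ⟨ν, hν⟩ := exists_dual_ne (K := K) hn₀
    exact ⟨(ν n₀)⁻¹ • ν, by simp [hν]⟩
  let h : U →ₗ[K] U' := (TensorProduct.lid K U').toLinearMap ∘ₗ (ν.rTensor U') ∘ₗ A ∘ₗ
    (TensorProduct.mk K N U n₀)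
  refine ⟨h, fun n u => ?_⟩
  rw [← sub_eq_zero]
  apply ctr_ext
  intro ψ
  let f : N →ₗ[R] N :=
    { toFun := fun n => ctr N ψ (A (n ⊗ₜ u))
      map_add' := fun x y => by rw [TensorProduct.add_tmul, map_add, map_add]
      map_smul' := fun s n => by
        have h1 := hA s (n ⊗ₜ u)
        rw [LinearMap.rTensor_tmul, lact_apply] at h1
        rw [h1, ctr_rTensor]; rfl }
  obtain ⟨c, hc⟩ := hb f
  have h1 : ψ (h u) = c := by
    change ψ (TensorProduct.lid K U' (ν.rTensor U' (A (n₀ ⊗ₜ u)))) = c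
    rw [lid_rTensor_ctr]
    have := hc n₀
    change ctr N ψ (A (n₀ ⊗ₜ u)) = c • n₀ at this
    rw [this, map_smul, hν, smul_eq_mul, mul_one]
  have h2 : ctr N ψ (A (n ⊗ₜ u)) = c • n := hc n
  rw [map_sub, h2, ctr_tmul, h1, sub_self]

end Contraction

namespace BrickPair

variable {K : Type u} [Field K] {R : Type u} [Ring R] [Algebra K R] {ι : Type} [Fintype ι]

/-- The module attached to a family of operators. -/
def V (B : BrickPair K R ι) (U : Type u) [AddCommGroup U] [Module K U]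
    (_ : ι → U →ₗ[K] U) : Type u := (B.N₂ ⊗[K] U) × (B.N₁ ⊗[K] U)

variable (B : BrickPair K R ι) {U : Type u} [AddCommGroup U] [Module K U] (θ : ι → U →ₗ[K] U)
  {U' : Type u} [AddCommGroup U'] [Module K U'] (θ' : ι → U' →ₗ[K] U')
  {U'' : Type u} [AddCommGroup U''] [Module K U''] (θ'' : ι → U'' →ₗ[K] U'')

noncomputable instance : AddCommGroup (B.V U θ) :=
  inferInstanceAs (AddCommGroup ((B.N₂ ⊗[K] U) × (B.N₁ ⊗[K] U)))

noncomputable instance : Module K (B.V U θ) :=
  inferInstanceAs (Module K ((B.N₂ ⊗[K] U) × (B.N₁ ⊗[K] U)))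

/-- The derivation part. -/
noncomputable def dpart (s : R) : (B.N₁ ⊗[K] U) →ₗ[K] (B.N₂ ⊗[K] U) :=
  ∑ i, TensorProduct.map (B.D i s) (θ i)

theorem dpart_tmul (s : R) (n : B.N₁) (u : U) :
    B.dpart θ s (n ⊗ₜ u) = ∑ i, B.D i s n ⊗ₜ θ i u := by
  simp [dpart, LinearMap.sum_apply]

theorem dpart_one : B.dpart θ 1 = 0 := by
  apply TensorProduct.ext'
  intro n u
  rw [dpart_tmul]
  have h : ∀ i n, B.D i 1 n = 0 := by
    intro i n
    have := B.D_mul i 1 1 n
    simp only [mul_one, one_smul] at this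
    exact left_eq_add.1 this
  simp [h]

theorem dpart_mul (s t : R) (z : B.N₁ ⊗[K] U) : B.dpart θ (s * t) z =
    (lact (K := K) B.N₂ s).rTensor U (B.dpart θ t z) +
      B.dpart θ s ((lact (K := K) B.N₁ t).rTensor U z) := by
  induction z with
  | zero => simp
  | tmul n u =>
    rw [LinearMap.rTensor_tmul, lact_apply, dpart_tmul, dpart_tmul, dpart_tmul, map_sum,
      ← Finset.sum_add_distrib]
    refine Finset.sum_congr rfl (fun i _ => ?_)
    rw [B.D_mul, TensorProduct.add_tmul, LinearMap.rTensor_tmul, lact_apply]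
  | add x y hx hy => simp only [map_add, hx, hy]; abel

/-- The action of one element. -/
noncomputable def act (s : R) : B.V U θ →ₗ[K] B.V U θ :=
  LinearMap.prod
    ((((lact (K := K) B.N₂ s).rTensor U) ∘ₗ (LinearMap.fst K _ _)) +
      (B.dpart θ s) ∘ₗ (LinearMap.snd K _ _))
    (((lact (K := K) B.N₁ s).rTensor U) ∘ₗ (LinearMap.snd K _ _))

theorem act_apply (s : R) (p : B.N₂ ⊗[K] U) (q : B.N₁ ⊗[K] U) :
    B.act θ s (p, q) = (((lact (K := K) B.N₂ s).rTensor U p + B.dpart θ s q,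
      (lact (K := K) B.N₁ s).rTensor U q) : (B.N₂ ⊗[K] U) × (B.N₁ ⊗[K] U)) := rfl

theorem act_add (s t : R) : B.act θ (s + t) = B.act θ s + B.act θ t := by
  apply LinearMap.ext
  rintro ⟨p, q⟩
  have h1 : lact (K := K) B.N₂ (s + t) = lact (K := K) B.N₂ s + lact (K := K) B.N₂ t := by
    ext n; simp [add_smul]
  have h2 : lact (K := K) B.N₁ (s + t) = lact (K := K) B.N₁ s + lact (K := K) B.N₁ t := by
    ext n; simp [add_smul]
  have h3 : B.dpart θ (s + t) = B.dpart θ s + B.dpart θ t := by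
    simp [dpart, TensorProduct.map_add_left, Finset.sum_add_distrib]
  rw [LinearMap.add_apply, act_apply, act_apply, act_apply, h1, h2, h3]
  apply Prod.ext
  · change _ = (_ + _) + (_ + _)
    simp only [LinearMap.rTensor_add, LinearMap.add_apply]
    abel
  · change _ = _ + _
    simp only [LinearMap.rTensor_add, LinearMap.add_apply]

theorem act_smul (c : K) (s : R) : B.act θ (c • s) = c • B.act θ s := by
  apply LinearMap.ext
  rintro ⟨p, q⟩
  have h1 : lact (K := K) B.N₂ (c • s) = c • lact (K := K) B.N₂ s := by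
    ext n; simp
  have h2 : lact (K := K) B.N₁ (c • s) = c • lact (K := K) B.N₁ s := by
    ext n; simp
  have h3 : B.dpart θ (c • s) = c • B.dpart θ s := by
    simp [dpart, TensorProduct.map_smul_left, Finset.smul_sum]
  rw [LinearMap.smul_apply, act_apply, act_apply, h1, h2, h3]
  apply Prod.ext
  · change _ = c • (_ + _)
    simp only [LinearMap.rTensor_smul, LinearMap.smul_apply, smul_add]
  · change _ = c • _
    simp only [LinearMap.rTensor_smul, LinearMap.smul_apply]

theorem act_one : B.act θ 1 = LinearMap.id := by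
  apply LinearMap.ext
  rintro ⟨p, q⟩
  have h1 : lact (K := K) B.N₂ (1 : R) = LinearMap.id := by ext n; simp
  have h2 : lact (K := K) B.N₁ (1 : R) = LinearMap.id := by ext n; simp
  rw [act_apply, h1, h2, dpart_one]
  simp

theorem act_mul (s t : R) : B.act θ (s * t) = B.act θ s ∘ₗ B.act θ t := by
  apply LinearMap.ext
  rintro ⟨p, q⟩
  have h1 : lact (K := K) B.N₂ (s * t) = (lact (K := K) B.N₂ s) ∘ₗ (lact (K := K) B.N₂ t) := by
    ext n; simp [mul_smul]
  have h2 : lact (K := K) B.N₁ (s * t) = (lact (K := K) B.N₁ s) ∘ₗ (lact (K := K) B.N₁ t) := by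
    ext n; simp [mul_smul]
  rw [LinearMap.comp_apply, act_apply, act_apply, act_apply, dpart_mul, h1, h2]
  simp only [LinearMap.rTensor_comp, LinearMap.comp_apply, map_add]
  apply Prod.ext
  · change _ + (_ + _) = (_ + _) + _
    abel
  · rfl

/-- The action, as an algebra homomorphism. -/
noncomputable def rho : R →ₐ[K] Module.End K (B.V U θ) :=
  AlgHom.ofLinearMap
    { toFun := fun s => B.act θ s
      map_add' := fun s t => B.act_add θ s t
      map_smul' := fun c s => B.act_smul θ c s }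
    (B.act_one θ)
    (fun s t => B.act_mul θ s t)

theorem rho_apply (s : R) (p : B.N₂ ⊗[K] U) (q : B.N₁ ⊗[K] U) :
    B.rho θ s (p, q) = (((lact (K := K) B.N₂ s).rTensor U p + B.dpart θ s q,
      (lact (K := K) B.N₁ s).rTensor U q) : (B.N₂ ⊗[K] U) × (B.N₁ ⊗[K] U)) := rfl

noncomputable instance : Module R (B.V U θ) := Module.compHom _ (B.rho θ).toRingHom

theorem smul_def (s : R) (v : B.V U θ) : s • v = B.rho θ s v := rfl

instance : IsScalarTower K R (B.V U θ) := by
  refine ⟨fun c s v => ?_⟩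
  rw [smul_def, smul_def, map_smul]; rfl

/-- The map induced by an intertwiner. -/
noncomputable def mapV (h : U →ₗ[K] U') (hh : ∀ i u, h (θ i u) = θ' i (h u)) :
    B.V U θ →ₗ[R] B.V U' θ' :=
  { toFun := fun v => ((h.lTensor B.N₂) v.1, (h.lTensor B.N₁) v.2)
    map_add' := fun v w => by
      apply Prod.ext
      · exact map_add _ _ _
      · exact map_add _ _ _
    map_smul' := fun s v => by
      obtain ⟨p, q⟩ := v
      have h1 : ∀ z : B.N₂ ⊗[K] U, h.lTensor B.N₂ ((lact (K := K) B.N₂ s).rTensor U z) =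
          (lact (K := K) B.N₂ s).rTensor U' (h.lTensor B.N₂ z) := by
        intro z
        induction z with
        | zero => simp
        | tmul n u => simp
        | add x y hx hy => simp only [map_add, hx, hy]
      have h2 : ∀ z : B.N₁ ⊗[K] U, h.lTensor B.N₁ ((lact (K := K) B.N₁ s).rTensor U z) =
          (lact (K := K) B.N₁ s).rTensor U' (h.lTensor B.N₁ z) := by
        intro z
        induction z with
        | zero => simp
        | tmul n u => simp
        | add x y hx hy => simp only [map_add, hx, hy]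
      have h3 : ∀ z : B.N₁ ⊗[K] U, h.lTensor B.N₂ (B.dpart θ s z) =
          B.dpart θ' s (h.lTensor B.N₁ z) := by
        intro z
        induction z with
        | zero => simp
        | tmul n u => simp [dpart_tmul, hh]
        | add x y hx hy => simp only [map_add, hx, hy]
      apply Prod.ext
      · change h.lTensor B.N₂ ((lact (K := K) B.N₂ s).rTensor U p + B.dpart θ s q) =
          (lact (K := K) B.N₂ s).rTensor U' (h.lTensor B.N₂ p) +
            B.dpart θ' s (h.lTensor B.N₁ q)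
        rw [map_add, h1, h3]
      · exact h2 q }

theorem mapV_apply (h : U →ₗ[K] U') (hh : ∀ i u, h (θ i u) = θ' i (h u)) (v : B.V U θ) :
    B.mapV θ θ' h hh v = (((h.lTensor B.N₂) v.1, (h.lTensor B.N₁) v.2) : _ × _) := rfl

theorem mapV_injective {h h' : U →ₗ[K] U'} {hh hh'} (heq : B.mapV θ θ' h hh = B.mapV θ θ' h' hh') :
    h = h' := by
  have := B.ne₁
  obtain ⟨n₀, hn₀⟩ := exists_ne (0 : B.N₁)
  obtain ⟨ν, hν⟩ : ∃ ν : B.N₁ →ₗ[K] K, ν n₀ = 1 := by
    obtain ⟨ν, hν⟩ := exists_dual_ne (K := K) hn₀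
    exact ⟨(ν n₀)⁻¹ • ν, by simp [hν]⟩
  ext u
  have h1 := congrArg (fun g => (g ((0, n₀ ⊗ₜ u) : B.V U θ)).2) heq
  change h.lTensor B.N₁ (n₀ ⊗ₜ u) = h'.lTensor B.N₁ (n₀ ⊗ₜ u) at h1
  rw [LinearMap.lTensor_tmul, LinearMap.lTensor_tmul] at h1
  have h2 := congrArg (fun z => TensorProduct.lid K U' (ν.rTensor U' z)) h1
  simpa [hν] using h2

/-- Fullness. -/
theorem full (i₀ : ι) (hθ : θ i₀ = LinearMap.id) (hθ' : θ' i₀ = LinearMap.id)
    (f : B.V U θ →ₗ[R] B.V U' θ') :
    ∃ (h : U →ₗ[K] U') (hh : ∀ i u, h (θ i u) = θ' i (h u)), f = B.mapV θ θ' h hh := by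
  classical
  have := B.ne₁
  have := B.ne₂
  let f' : ((B.N₂ ⊗[K] U) × (B.N₁ ⊗[K] U)) →ₗ[K] ((B.N₂ ⊗[K] U') × (B.N₁ ⊗[K] U')) :=
    f.restrictScalars K
  have hf' : ∀ (s : R) (p : B.N₂ ⊗[K] U) (q : B.N₁ ⊗[K] U),
      f' ((lact (K := K) B.N₂ s).rTensor U p + B.dpart θ s q,
      (lact (K := K) B.N₁ s).rTensor U q) =
      ((lact (K := K) B.N₂ s).rTensor U' (f' (p, q)).1 + B.dpart θ' s (f' (p, q)).2,
      (lact (K := K) B.N₁ s).rTensor U' (f' (p, q)).2) := by
    intro s p q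
    exact f.map_smul s ((p, q) : B.V U θ)
  let A : (B.N₂ ⊗[K] U) →ₗ[K] (B.N₂ ⊗[K] U') :=
    (LinearMap.fst K _ _) ∘ₗ f' ∘ₗ (LinearMap.inl K _ _)
  let C : (B.N₂ ⊗[K] U) →ₗ[K] (B.N₁ ⊗[K] U') :=
    (LinearMap.snd K _ _) ∘ₗ f' ∘ₗ (LinearMap.inl K _ _)
  let Bq : (B.N₁ ⊗[K] U) →ₗ[K] (B.N₂ ⊗[K] U') :=
    (LinearMap.fst K _ _) ∘ₗ f' ∘ₗ (LinearMap.inr K _ _)
  let Dq : (B.N₁ ⊗[K] U) →ₗ[K] (B.N₁ ⊗[K] U') :=
    (LinearMap.snd K _ _) ∘ₗ f' ∘ₗ (LinearMap.inr K _ _)
  have hsplit : ∀ p q, f' (p, q) = (A p + Bq q, C p + Dq q) := by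
    intro p q
    have h1 : ((p, q) : (B.N₂ ⊗[K] U) × (B.N₁ ⊗[K] U)) = (p, 0) + (0, q) := by simp
    rw [h1, map_add]
    rfl
  have hC : C = 0 := by
    apply orth_tensor (R := R) C _ B.hom₂₁
    intro s z
    have := hf' s z 0
    simp only [map_zero, add_zero, hsplit] at this
    exact congrArg Prod.snd this
  have hA : ∀ (s : R) z, A ((lact (K := K) B.N₂ s).rTensor U z) =
      (lact (K := K) B.N₂ s).rTensor U' (A z) := by
    intro s z
    have := hf' s z 0
    simp only [map_zero, add_zero, hsplit, hC, LinearMap.zero_apply] at this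
    exact congrArg Prod.fst this
  have hBD : ∀ (s : R) z, A (B.dpart θ s z) + Bq ((lact (K := K) B.N₁ s).rTensor U z) =
      (lact (K := K) B.N₂ s).rTensor U' (Bq z) + B.dpart θ' s (Dq z) ∧
      Dq ((lact (K := K) B.N₁ s).rTensor U z) = (lact (K := K) B.N₁ s).rTensor U' (Dq z) := by
    intro s z
    have := hf' s 0 z
    simp only [map_zero, zero_add, hsplit, hC, LinearMap.zero_apply] at this
    exact ⟨congrArg Prod.fst this, congrArg Prod.snd this⟩
  obtain ⟨h, hh⟩ := brick_tensor (R := R) A hA B.brick₂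
  obtain ⟨h', hh'⟩ := brick_tensor (R := R) Dq (fun s z => (hBD s z).2) B.brick₁
  have hkey : ∀ (u : U) (ψ : U' →ₗ[K] K) (s : R) (n : B.N₁),
      ∑ i, ψ (h (θ i u) - θ' i (h' u)) • B.D i s n =
        s • ctr B.N₂ ψ (Bq (n ⊗ₜ u)) - ctr B.N₂ ψ (Bq ((s • n) ⊗ₜ u)) := by
    intro u ψ s n
    have h1 := (hBD s (n ⊗ₜ u)).1
    rw [dpart_tmul, map_sum, hh', dpart_tmul, LinearMap.rTensor_tmul, lact_apply] at h1
    have h2 := congrArg (ctr B.N₂ ψ) h1
    rw [map_add, map_add, ctr_rTensor, map_sum, map_sum] at h2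
    simp only [hh, ctr_tmul, lact_apply] at h2
    simp only [map_sub, sub_smul, Finset.sum_sub_distrib]
    rw [sub_eq_sub_iff_add_eq_add, h2]
  have hcomm : ∀ i u, h (θ i u) = θ' i (h' u) := by
    intro i u
    rw [← sub_eq_zero]
    by_contra hne
    obtain ⟨ψ, hψ⟩ := exists_dual_ne (K := K) hne
    apply hψ
    have := B.indep (fun i => ψ (h (θ i u) - θ' i (h' u)))
      ⟨(ctr B.N₂ ψ) ∘ₗ Bq ∘ₗ ((TensorProduct.mk K B.N₁ U).flip u), fun s n => hkey u ψ s n⟩
    exact congrFun this i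
  have hhh : h = h' := by
    ext u
    have := hcomm i₀ u
    rwa [hθ, hθ'] at this
  subst hhh
  have hBq : Bq = 0 := by
    apply orth_tensor (R := R) Bq _ B.hom₁₂
    intro s z
    rw [← sub_eq_zero]
    apply ctr_ext
    intro ψ
    induction z with
    | zero => simp
    | tmul n u =>
      have h1 := hkey u ψ s n
      simp only [hcomm, sub_self, map_zero, zero_smul, Finset.sum_const_zero] at h1
      rw [map_sub, ctr_rTensor, LinearMap.rTensor_tmul, lact_apply, lact_apply, sub_eq_zero]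
      exact (sub_eq_zero.1 h1.symm).symm
    | add x y hx hy =>
      simp only [map_add, map_sub] at hx hy ⊢
      rw [add_sub_add_comm, hx, hy, add_zero]
  refine ⟨h, hcomm, ?_⟩
  apply LinearMap.ext
  rintro ⟨p, q⟩
  have h1 : f ((p, q) : B.V U θ) = f' (p, q) := rfl
  rw [h1, hsplit, hC, hBq, mapV_apply]
  have hA' : A = h.lTensor B.N₂ := TensorProduct.ext' (fun n u => by rw [hh]; simp)
  have hD' : Dq = h.lTensor B.N₁ := TensorProduct.ext' (fun n u => by rw [hh']; simp)
  rw [hA', hD']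
  simp

end BrickPair

end Pool.Agent.Helper45.Wild
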