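import Mathlib

/-! Basic definitions: finite-dimensional right modules, fully wild algebras, comodules. -/

namespace Pool.Agent.Helper45.Wild

universe u

open CategoryTheory TensorProduct
open scoped ModuleCat

/-- The property of being a finite-dimensional right `A`-module. -/
def IsFD (K : Type u) [Field K] (A : Type u) [Ring A] [Algebra K A] :
    ObjectProperty (ModuleCat.{u} Aᵐᵒᵖ) :=
  fun M => Module.Finite K M

/-- The category `mod-A` of finite-dimensional right `A`-modules. -/
abbrev FdMod (K : Type u) [Field K] (A : Type u) [Ring A] [Algebra K A] :=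
  (IsFD K A).FullSubcategory

/-- `0 → X → Y → Z → 0` is a short exact sequence of modules. -/
def ShortEx {R : Type u} [Ring R] {X Y Z : ModuleCat.{u} R} (f : X ⟶ Y) (g : Y ⟶ Z) : Prop :=
  Function.Injective f.hom ∧ Function.Exact f.hom g.hom ∧ Function.Surjective g.hom

/-- The algebra `W` is fully wild: there is a full, faithful, exact `K`-linear functor from
finite-dimensional right modules over the free algebra in two variables to finite-dimensional
right `W`-modules. -/
def FullyWild (K : Type u) [Field K] (W : Type u) [Ring W] [Algebra K W] : Prop :=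
  ∃ G : FdMod K (FreeAlgebra K (Fin 2)) ⥤ FdMod K W,
    G.Additive ∧ G.Linear K ∧ G.Full ∧ G.Faithful ∧
    ∀ (X Y Z : FdMod K (FreeAlgebra K (Fin 2))) (f : X ⟶ Y) (g : Y ⟶ Z),
      ShortEx f.hom g.hom → ShortEx (G.map f).hom (G.map g).hom

/-- The map `Δ ⊗ 1 : C ⊗ X → C ⊗ (C ⊗ X)`. -/
noncomputable def comulTensor (K : Type u) [Field K] (C : Type u) [AddCommGroup C] [Module K C]
    [Coalgebra K C] (X : Type u) [AddCommGroup X] [Module K X] (z : C ⊗[K] X) :
    C ⊗[K] (C ⊗[K] X) :=
  TensorProduct.assoc K C C X (Coalgebra.comul.rTensor X z)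

/-- The map `ε ⊗ 1 : C ⊗ X → K ⊗ X = X`. -/
noncomputable def counitTensor (K : Type u) [Field K] (C : Type u) [AddCommGroup C] [Module K C]
    [Coalgebra K C] (X : Type u) [AddCommGroup X] [Module K X] (z : C ⊗[K] X) : X :=
  TensorProduct.lid K X (Coalgebra.counit.rTensor X z)

/-- The linear map `ρ : X → C ⊗ X` is coassociative and counital. -/
def IsCoaction (K : Type u) [Field K] (C : Type u) [AddCommGroup C] [Module K C]
    [Coalgebra K C] (X : Type u) [AddCommGroup X] [Module K X] (ρ : X →ₗ[K] C ⊗[K] X) : Prop :=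
  ∀ x, comulTensor K C X (ρ x) = ρ.lTensor C (ρ x) ∧ counitTensor K C X (ρ x) = x

/-- The linear map `f` commutes with the maps `ρ` and `ρ'`, that is `(1 ⊗ f) ρ = ρ' f`. -/
def Commutes {K : Type u} [Field K] (C : Type u) [AddCommGroup C] [Module K C]
    {X Y : Type u} [AddCommGroup X] [Module K X] [AddCommGroup Y] [Module K Y]
    (ρ : X →ₗ[K] C ⊗[K] X) (ρ' : Y →ₗ[K] C ⊗[K] Y) (f : X →ₗ[K] Y) : Prop :=
  ∀ x, f.lTensor C (ρ x) = ρ' (f x)

/-- A left comodule over the coalgebra `C`. -/
structure Comod (K : Type u) [Field K] (C : Type u) [AddCommGroup C] [Module K C]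
    [Coalgebra K C] where
  /-- the underlying vector space -/
  carrier : Type u
  [acg : AddCommGroup carrier]
  [mod : Module K carrier]
  /-- the coaction -/
  coact : carrier →ₗ[K] C ⊗[K] carrier
  isCoaction : IsCoaction K C carrier coact

attribute [instance] Comod.acg Comod.mod

namespace Comod

variable {K : Type u} [Field K] {C : Type u} [AddCommGroup C] [Module K C] [Coalgebra K C]

/-- The linear map `f` commutes with the coactions. -/
def IsHom (X Y : Comod K C) (f : X.carrier →ₗ[K] Y.carrier) : Prop :=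
  Commutes C X.coact Y.coact f

/-- Maps of comodules. -/
structure Hom (X Y : Comod K C) : Type u where
  /-- the underlying linear map -/
  lin : X.carrier →ₗ[K] Y.carrier
  isHom : IsHom X Y lin

theorem isHom_id (X : Comod K C) : IsHom X X LinearMap.id := fun x => by simp

theorem isHom_comp {X Y Z : Comod K C} (f : Hom X Y) (g : Hom Y Z) :
    IsHom X Z (g.lin ∘ₗ f.lin) := fun x => by
  have h1 : ∀ x, f.lin.lTensor C (X.coact x) = Y.coact (f.lin x) := f.isHom
  have h2 : ∀ x, g.lin.lTensor C (Y.coact x) = Z.coact (g.lin x) := g.isHom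
  rw [LinearMap.lTensor_comp, LinearMap.comp_apply, h1, h2, LinearMap.comp_apply]

instance : Category (Comod K C) where
  Hom X Y := Hom X Y
  id X := ⟨LinearMap.id, isHom_id X⟩
  comp f g := ⟨g.lin ∘ₗ f.lin, isHom_comp f g⟩

end Comod

/-- `0 → X → Y → Z → 0` is a short exact sequence of comodules. -/
def ComodShortEx {K : Type u} [Field K] {C : Type u} [AddCommGroup C] [Module K C]
    [Coalgebra K C] {X Y Z : Comod K C} (f : X ⟶ Y) (g : Y ⟶ Z) : Prop :=
  Function.Injective (Comod.Hom.lin f) ∧ Function.Exact (Comod.Hom.lin f) (Comod.Hom.lin g) ∧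
    Function.Surjective (Comod.Hom.lin g)

/-- An object of a category is indecomposable: it is nonzero, and whenever it is the
direct sum (coproduct) of two objects, one of them is zero. -/
def Indec {A : Type*} [Category A] (X : A) : Prop :=
  ¬ Limits.IsZero X ∧ ∀ (Y Z : A) (i : Y ⟶ X) (j : Z ⟶ X),
    Nonempty (Limits.IsColimit (Limits.BinaryCofan.mk i j)) → Limits.IsZero Y ∨ Limits.IsZero Z

/-- `h = a f + b g` for linear maps. -/
def LinComb {K : Type u} [Field K] {V V' : Type u} [AddCommGroup V] [Module K V]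
    [AddCommGroup V'] [Module K V'] (a b : K) (f g h : V →ₗ[K] V') : Prop :=
  ∀ v, h v = a • f v + b • g v

/-- `h = a f + b g` for maps of modules over a `K`-algebra. -/
def ModLinComb {K : Type u} [Field K] {R : Type u} [Ring R] [Algebra K R]
    {M N : ModuleCat.{u} R} (a b : K) (f g h : M ⟶ N) : Prop :=
  ∀ v, h.hom v = algebraMap K R a • f.hom v + algebraMap K R b • g.hom v

/-- The functor `F` is `K`-linear on the spaces of comodule maps. -/
def LinearFun {K : Type u} [Field K] {C : Type u} [AddCommGroup C] [Module K C]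
    [Coalgebra K C] {R : Type u} [Ring R] [Algebra K R] (F : Comod K C ⥤ ModuleCat.{u} R) :
    Prop :=
  ∀ (X Y : Comod K C) (a b : K) (f g h : X ⟶ Y),
    LinComb a b (Comod.Hom.lin f) (Comod.Hom.lin g) (Comod.Hom.lin h) →
      ModLinComb a b (F.map f) (F.map g) (F.map h)

end Pool.Agent.Helper45.Wild
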