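import Mathlib
import Pool.Agent.Helper45.Wild.Defs
import Pool.Agent.Helper45.Wild.Brick

/-! A fully wild algebra has brick pairs with arbitrarily many independent derivations. -/

namespace Pool.Agent.Helper45.Wild

universe u

open CategoryTheory
open scoped ModuleCat

theorem isFD_of (K : Type u) [Field K] (A : Type u) [Ring A] [Algebra K A]
    (M : ModuleCat.{u} Aᵐᵒᵖ) (V : Type u) [AddCommGroup V] [Module K V] [Module.Finite K V]
    (e : V →+ M) (he : ∀ (c : K) v, e (c • v) = (algebraMap K Aᵐᵒᵖ c) • e v)
    (hs : Function.Surjective e) : IsFD K A M := by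
  let e' : V →ₗ[K] M :=
    { toFun := e
      map_add' := e.map_add
      map_smul' := he }
  exact Module.Finite.of_surjective e' hs

section Free

variable {K : Type u} [Field K]

/-- A vector space with two operators, as a right module over the free algebra. -/
def FM (V : Type u) [AddCommGroup V] [Module K V] (_ : Fin 2 → V →ₗ[K] V) : Type u := V

variable {V V' V'' : Type u} [AddCommGroup V] [Module K V] [AddCommGroup V'] [Module K V']
  [AddCommGroup V''] [Module K V'']
  (x : Fin 2 → V →ₗ[K] V) (x' : Fin 2 → V' →ₗ[K] V') (x'' : Fin 2 → V'' →ₗ[K] V'')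

instance : AddCommGroup (FM V x) := inferInstanceAs (AddCommGroup V)


/-- The action of the opposite of the free algebra. -/
noncomputable def fact : (FreeAlgebra K (Fin 2))ᵐᵒᵖ →ₐ[K] Module.End K V :=
  AlgHom.opComm (FreeAlgebra.lift K (fun i => MulOpposite.op (x i)))

theorem fact_ι (i : Fin 2) : fact x (MulOpposite.op (FreeAlgebra.ι K i)) = x i := by
  simp [fact]

noncomputable instance : Module (FreeAlgebra K (Fin 2))ᵐᵒᵖ (FM V x) :=
  Module.compHom V (fact x).toRingHom

theorem fm_smul (a : (FreeAlgebra K (Fin 2))ᵐᵒᵖ) (v : FM V x) : a • v = fact x a v := rfl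


/-- A map commuting with the operators is a module map. -/
noncomputable def fmMap (f : V →ₗ[K] V') (hf : ∀ i v, f (x i v) = x' i (f v)) :
    FM V x →ₗ[(FreeAlgebra K (Fin 2))ᵐᵒᵖ] FM V' x' :=
  { toFun := f
    map_add' := f.map_add
    map_smul' := by
      intro a v
      change f (fact x a v) = fact x' a (f v)
      obtain ⟨a, rfl⟩ := MulOpposite.op_surjective a
      induction a using FreeAlgebra.induction generalizing v with
      | grade0 r =>
        have h1 : (MulOpposite.op (algebraMap K (FreeAlgebra K (Fin 2)) r)) =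
          algebraMap K (FreeAlgebra K (Fin 2))ᵐᵒᵖ r := rfl
        rw [h1, AlgHom.commutes, AlgHom.commutes]
        simp [Module.algebraMap_end_apply]
      | grade1 i => rw [fact_ι, fact_ι]; exact hf i v
      | mul a b ha hb =>
        rw [MulOpposite.op_mul, map_mul, map_mul, Module.End.mul_apply, Module.End.mul_apply,
          hb, ha]
      | add a b ha hb =>
        rw [MulOpposite.op_add, map_add, map_add, LinearMap.add_apply, LinearMap.add_apply,
          map_add, ha, hb] }

theorem fmMap_apply (f : V →ₗ[K] V') (hf : ∀ i v, f (x i v) = x' i (f v)) (v : FM V x) :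
    fmMap x x' f hf v = f v := rfl

/-- The identity map to the type synonym. -/
def toFM (v : V) : FM V x := v

theorem op_smul (i : Fin 2) (v : V) :
    (MulOpposite.op (FreeAlgebra.ι K i)) • (toFM x v) = toFM x (x i v) := by
  rw [fm_smul, fact_ι]; rfl

theorem alg_smul (c : K) (v : V) :
    (algebraMap K (FreeAlgebra K (Fin 2))ᵐᵒᵖ c) • (toFM x v) = toFM x (c • v) := by
  rw [fm_smul, AlgHom.commutes]
  simp [Module.algebraMap_end_apply]
  rfl

/-- The module as an object of the category of finite-dimensional modules. -/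
noncomputable def fmObj [h : Module.Finite K V] : FdMod K (FreeAlgebra K (Fin 2)) :=
  ⟨ModuleCat.of _ (FM V x), isFD_of K _ (ModuleCat.of _ (FM V x)) V
    (AddMonoidHom.mk' (toFM x) (fun _ _ => rfl)) (fun c v => (alg_smul x c v).symm)
    (fun v => ⟨v, rfl⟩)⟩

/-- The morphism of finite-dimensional modules. -/
noncomputable def fmHom [Module.Finite K V] [Module.Finite K V'] (f : V →ₗ[K] V')
    (hf : ∀ i v, f (x i v) = x' i (f v)) : fmObj x ⟶ fmObj x' :=
  ObjectProperty.homMk (ModuleCat.ofHom (fmMap x x' f hf))

variable {x x' x''}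

/-- The linear map underlying a morphism. -/
noncomputable def fmLin [Module.Finite K V] [Module.Finite K V'] (f : fmObj x ⟶ fmObj x') :
    V →ₗ[K] V' :=
  { toFun := fun v => f.hom.hom (toFM x v)
    map_add' := fun v w => map_add f.hom.hom _ _
    map_smul' := fun c v => by
      have h := f.hom.hom.map_smul (algebraMap K (FreeAlgebra K (Fin 2))ᵐᵒᵖ c) (toFM x v)
      exact (congrArg f.hom.hom (alg_smul x c v).symm).trans (h.trans (alg_smul x' c _)) }

theorem fmLin_comm [Module.Finite K V] [Module.Finite K V'] (f : fmObj x ⟶ fmObj x')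
    (i : Fin 2) (v : V) : fmLin f (x i v) = x' i (fmLin f v) := by
  have h := f.hom.hom.map_smul (MulOpposite.op (FreeAlgebra.ι K i)) (toFM x v)
  exact (congrArg f.hom.hom (op_smul x i v).symm).trans (h.trans (op_smul x' i _))

theorem fm_ext [Module.Finite K V] [Module.Finite K V'] {f g : fmObj x ⟶ fmObj x'}
    (h : fmLin f = fmLin g) : f = g := by
  apply ObjectProperty.hom_ext
  apply ModuleCat.hom_ext
  apply LinearMap.ext
  intro v
  exact congrArg (fun k => k v) h

end Free

end Pool.Agent.Helper45.Wild
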