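import Mathlib
import Pool.Agent.Helper45.Wild.Wild

/-! A fully wild algebra has brick pairs with nine independent derivations. -/

namespace Pool.Agent.Helper45.Wild

universe u

open CategoryTheory
open scoped ModuleCat

section Models

variable (K : Type u) [Field K]

/-- shift down -/
def sx : (Fin 11 → K) →ₗ[K] (Fin 11 → K) :=
  LinearMap.pi (fun i => if h : i.1 + 1 < 11 then LinearMap.proj ⟨i.1 + 1, h⟩ else 0)

/-- shift up -/
def sy : (Fin 11 → K) →ₗ[K] (Fin 11 → K) :=
  LinearMap.pi (fun i => if h : 0 < i.1 then LinearMap.proj ⟨i.1 - 1, by omega⟩ else 0)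

variable {K}

theorem sx_apply_lt (v : Fin 11 → K) (i : ℕ) (h : i + 1 < 11) :
    sx K v ⟨i, by omega⟩ = v ⟨i + 1, h⟩ := by
  simp only [sx, LinearMap.pi_apply]
  rw [dif_pos h]; rfl

theorem sx_apply_last (v : Fin 11 → K) : sx K v ⟨10, by omega⟩ = 0 := by
  simp only [sx, LinearMap.pi_apply]
  rw [dif_neg (by simp)]; rfl

theorem sy_apply_succ (v : Fin 11 → K) (i : ℕ) (h : i + 1 < 11) :
    sy K v ⟨i + 1, h⟩ = v ⟨i, by omega⟩ := by
  simp only [sy, LinearMap.pi_apply]
  rw [dif_pos (by simp)]; rfl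

theorem sy_apply_zero (v : Fin 11 → K) : sy K v ⟨0, by omega⟩ = 0 := by
  simp only [sy, LinearMap.pi_apply]
  rw [dif_neg (by simp)]; rfl

theorem sx_ker (v : Fin 11 → K) (h : sx K v = 0) : v = Pi.single 0 (v 0) := by
  funext i
  obtain ⟨i, hi⟩ := i
  rcases i with _ | i
  · simp
  · have h1 := congrFun h ⟨i, by omega⟩
    rw [sx_apply_lt v i hi] at h1
    rw [h1, Pi.single_apply, if_neg]
    · rfl
    · intro h2
      exact absurd (congrArg Fin.val h2) (by simp)

theorem sy_single (i : ℕ) (h : i + 1 < 11) (a : K) :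
    sy K (Pi.single ⟨i, by omega⟩ a) = Pi.single ⟨i + 1, h⟩ a := by
  funext j
  obtain ⟨j, hj⟩ := j
  rcases j with _ | j
  · rw [sy_apply_zero, Pi.single_apply, if_neg]
    intro h2
    exact absurd (congrArg Fin.val h2) (by simp)
  · rw [sy_apply_succ _ j hj, Pi.single_apply, Pi.single_apply]
    simp only [Fin.mk.injEq, Nat.add_right_cancel_iff]

theorem sx_single (i : ℕ) (h : i + 1 < 11) (a : K) :
    sx K (Pi.single ⟨i + 1, h⟩ a) = Pi.single ⟨i, by omega⟩ a := by
  funext j
  obtain ⟨j, hj⟩ := j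
  by_cases hj' : j + 1 < 11
  · rw [sx_apply_lt _ j hj', Pi.single_apply, Pi.single_apply]
    simp only [Fin.mk.injEq, Nat.add_right_cancel_iff]
  · have : j = 10 := by omega
    subst this
    rw [sx_apply_last, Pi.single_apply, if_neg]
    simp only [Fin.mk.injEq]; omega

theorem sx_single_zero (a : K) : sx K (Pi.single 0 a) = 0 := by
  funext j
  obtain ⟨j, hj⟩ := j
  by_cases hj' : j + 1 < 11
  · rw [sx_apply_lt _ j hj', Pi.single_apply, if_neg]
    · rfl
    · intro h2
      exact absurd (congrArg Fin.val h2) (by simp)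
  · have : j = 10 := by omega
    subst this
    rw [sx_apply_last]; rfl

theorem shift_endo (f : (Fin 11 → K) →ₗ[K] (Fin 11 → K)) (hx : ∀ v, f (sx K v) = sx K (f v))
    (hy : ∀ v, f (sy K v) = sy K (f v)) : ∃ c : K, ∀ v, f v = c • v := by
  let c := f (Pi.single 0 1) 0
  have h0 : f (Pi.single 0 1) = Pi.single 0 c := by
    apply sx_ker
    rw [← hx, sx_single_zero, map_zero]
  have hi : ∀ (i : ℕ) (h : i < 11), f (Pi.single ⟨i, h⟩ 1) = Pi.single ⟨i, h⟩ c := by
    intro i
    induction i with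
    | zero => intro _; exact h0
    | succ i ih =>
      intro h
      rw [← sy_single i h, hy, ih (by omega), sy_single i h]
  refine ⟨c, fun v => ?_⟩
  have : f = c • LinearMap.id := by
    apply LinearMap.pi_ext'
    intro i
    ext
    simp only [LinearMap.comp_apply, LinearMap.single_apply, LinearMap.smul_apply,
      LinearMap.id_apply]
    rw [hi i.1 i.2]
    rw [← Pi.single_smul]
    simp
  rw [this]; rfl

theorem shift_kernel (v : Fin 11 → K) (hx : sx K v = 0) (hy : sy K v = 0) : v = 0 := by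
  have h1 := sx_ker v hx
  rw [h1] at hy
  have h2 := sy_single (K := K) 0 (by omega) (v 0)
  have h3 : (Pi.single ⟨1, by omega⟩ (v 0) : Fin 11 → K) = 0 := by
    rw [← hy]; exact h2.symm
  have h4 := congrFun h3 ⟨1, by omega⟩
  simp at h4
  rw [h1, h4]; simp

theorem shift_cokernel (g : (Fin 11 → K) →ₗ[K] K) (hx : ∀ v, g (sx K v) = 0)
    (hy : ∀ v, g (sy K v) = 0) : g = 0 := by
  apply LinearMap.pi_ext'
  intro i
  ext
  simp only [LinearMap.comp_apply, LinearMap.single_apply, LinearMap.zero_apply]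
  obtain ⟨i, hi⟩ := i
  by_cases h : i + 1 < 11
  · rw [← sx_single i h]; exact hx _
  · have : i = 10 := by omega
    subst this
    rw [← sy_single 9 (by omega)]; exact hy _

variable (K)

/-- operators of the simple module -/
def x1 : Fin 2 → K →ₗ[K] K := fun _ => 0

/-- operators of the shift module -/
def x2 : Fin 2 → (Fin 11 → K) →ₗ[K] (Fin 11 → K) := ![sx K, sy K]

/-- operators of the power of the shift module -/
def x9 : Fin 2 → (Fin 9 → Fin 11 → K) →ₗ[K] (Fin 9 → Fin 11 → K) :=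
  fun i => LinearMap.pi (fun j => (x2 K i) ∘ₗ (LinearMap.proj j))

/-- the extension vector -/
def ev : Fin 9 → Fin 11 → K := fun j => Pi.single ⟨j.1 + 2, by omega⟩ 1

/-- operators of the extension -/
def xu : Fin 2 → (K × (Fin 9 → Fin 11 → K)) →ₗ[K] (K × (Fin 9 → Fin 11 → K)) :=
  ![(LinearMap.inr K _ _) ∘ₗ (x9 K 0) ∘ₗ (LinearMap.snd K _ _),
    (LinearMap.inr K _ _) ∘ₗ ((x9 K 1) ∘ₗ (LinearMap.snd K _ _) +
      (LinearMap.toSpanSingleton K _ (ev K)) ∘ₗ (LinearMap.fst K _ _))]

/-- the simple module -/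
noncomputable abbrev M1 : FdMod K (FreeAlgebra K (Fin 2)) := fmObj (x1 K)
/-- the shift module -/
noncomputable abbrev M2 : FdMod K (FreeAlgebra K (Fin 2)) := fmObj (x2 K)
/-- the power of the shift module -/
noncomputable abbrev M9 : FdMod K (FreeAlgebra K (Fin 2)) := fmObj (x9 K)
/-- the extension -/
noncomputable abbrev Mu : FdMod K (FreeAlgebra K (Fin 2)) := fmObj (xu K)

/-- inclusion -/
noncomputable def fi : M9 K ⟶ Mu K := fmHom (x9 K) (xu K) (LinearMap.inr K _ _) (by
  intro i v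
  fin_cases i
  · rfl
  · simp [xu])

/-- projection -/
noncomputable def fp : Mu K ⟶ M1 K := fmHom (xu K) (x1 K) (LinearMap.fst K _ _) (by
  intro i v
  fin_cases i
  · rfl
  · rfl)

/-- coordinate projections -/
noncomputable def fc (j : Fin 9) : M9 K ⟶ M2 K := fmHom (x9 K) (x2 K) (LinearMap.proj j) (by
  intro i v
  rfl)

theorem fi_fp_short : ShortEx (fi K).hom (fp K).hom := by
  refine ⟨?_, ?_, ?_⟩
  · intro v w h
    exact congrArg Prod.snd h
  · intro v
    constructor
    · intro h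
      refine ⟨v.2, ?_⟩
      apply Prod.ext
      · exact h.symm
      · rfl
    · rintro ⟨w, rfl⟩
      rfl
  · intro v
    exact ⟨(v, 0), rfl⟩

theorem fmLin_smul {V V' : Type u} [AddCommGroup V] [Module K V] [AddCommGroup V'] [Module K V']
    {x : Fin 2 → V →ₗ[K] V} {x' : Fin 2 → V' →ₗ[K] V'}
    [Module.Finite K V] [Module.Finite K V'] (c : K) (f : fmObj x ⟶ fmObj x') (v : V) :
    fmLin (c • f) v = c • fmLin f v :=
  alg_smul x' c (fmLin f v)

theorem M1_endo (f : M1 K ⟶ M1 K) : ∃ c : K, f = c • 𝟙 (M1 K) := by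
  refine ⟨fmLin f 1, ?_⟩
  apply fm_ext
  ext
  rw [fmLin_smul]
  change fmLin f 1 = fmLin f 1 • (1 : K)
  simp

theorem M2_endo (f : M2 K ⟶ M2 K) : ∃ c : K, f = c • 𝟙 (M2 K) := by
  obtain ⟨c, hc⟩ := shift_endo (fmLin f) (fun v => fmLin_comm f 0 v) (fun v => fmLin_comm f 1 v)
  refine ⟨c, ?_⟩
  apply fm_ext
  apply LinearMap.ext
  intro v
  rw [fmLin_smul]
  exact hc v

theorem M1_M2 (f : M1 K ⟶ M2 K) : f = 0 := by
  apply fm_ext
  ext1
  have h0 := fmLin_comm f 0 (1 : K)
  have h1 := fmLin_comm f 1 (1 : K)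
  have h2 : fmLin f 1 = 0 := by
    apply shift_kernel
    · exact h0.symm.trans (map_zero _)
    · exact h1.symm.trans (map_zero _)
  exact h2

theorem M2_M1 (f : M2 K ⟶ M1 K) : f = 0 := by
  apply fm_ext
  have h : fmLin f = 0 := shift_cokernel (fmLin f) (fun v => fmLin_comm f 0 v)
    (fun v => fmLin_comm f 1 v)
  rw [h]; rfl

/-- Independence of the extension classes. -/
theorem indep_classes (c : Fin 9 → K) (g : Mu K ⟶ M2 K)
    (h : fi K ≫ g = ∑ j, c j • fc K j) : c = 0 := by
  have hlin : ∀ m : Fin 9 → Fin 11 → K, fmLin g (0, m) = ∑ j, c j • m j := by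
    intro m
    have h1 : fmLin (fi K ≫ g) m = fmLin g (0, m) := rfl
    have h2 : ∀ s : Finset (Fin 9), fmLin (∑ j ∈ s, c j • fc K j) m = ∑ j ∈ s, c j • m j := by
      intro s
      classical
      induction s using Finset.induction_on with
      | empty => simp; rfl
      | insert a s ha ih =>
        rw [Finset.sum_insert ha, Finset.sum_insert ha, ← ih]
        have h3 : fmLin (c a • fc K a + ∑ j ∈ s, c j • fc K j) m =
          fmLin (c a • fc K a) m + fmLin (∑ j ∈ s, c j • fc K j) m := rfl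
        rw [h3, fmLin_smul]; rfl
    rw [← h1, h]; exact h2 _
  let v : Fin 11 → K := fmLin g (1, 0)
  have hx : sx K v = 0 := by
    have h1 := fmLin_comm g 0 ((1, 0) : K × (Fin 9 → Fin 11 → K))
    have h2 : xu K 0 (1, 0) = 0 := by
      simp [xu]
    rw [h2, map_zero] at h1
    exact h1.symm
  have hy : sy K v = ∑ j, c j • ev K j := by
    have h1 := fmLin_comm g 1 ((1, 0) : K × (Fin 9 → Fin 11 → K))
    have h2 : xu K 1 (1, 0) = (0, ev K) := by
      simp [xu]
    rw [h2, hlin] at h1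
    exact h1.symm
  have hv := sx_ker v hx
  have hv1 : sy K v = Pi.single ⟨1, by omega⟩ (v 0) := by
    rw [hv]
    exact sy_single 0 (by omega) (v 0)
  funext j
  have h3 := congrFun (hy.symm.trans hv1) ⟨j.1 + 2, by omega⟩
  rw [Finset.sum_apply, Finset.sum_eq_single j] at h3
  · rw [Pi.single_apply, if_neg] at h3
    · simpa [ev] using h3
    · simp only [Fin.mk.injEq]; omega
  · intro b _ hb
    simp only [ev, Pi.smul_apply, Pi.single_apply, smul_eq_mul, mul_ite, mul_one, mul_zero]
    rw [if_neg]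
    simp only [Fin.mk.injEq]
    intro h4
    exact hb (Fin.ext (by omega))
  · intro h4; exact absurd (Finset.mem_univ _) h4

end Models

end Pool.Agent.Helper45.Wild
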