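import Mathlib
import Pool.Agent.Helper45.Wild.Wild2

/-! The brick pair of a fully wild algebra. -/

namespace Pool.Agent.Helper45.Wild

universe u

open CategoryTheory
open scoped ModuleCat

theorem exists_brick (K : Type u) [Field K] (W : Type u) [Ring W] [Algebra K W]
    (hW : FullyWild K W) : Nonempty (BrickPair K Wᵐᵒᵖ (Fin 9)) := by
  classical
  obtain ⟨G, hadd, hlin, hfull, hfaith, hex⟩ := hW
  let N₁ := (G.obj (M1 K)).obj
  let N₂ := (G.obj (M2 K)).obj
  let N₉ := (G.obj (M9 K)).obj
  let E := (G.obj (Mu K)).obj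
  let gi : N₉ →ₗ[Wᵐᵒᵖ] E := (G.map (fi K)).hom.hom
  let gp : E →ₗ[Wᵐᵒᵖ] N₁ := (G.map (fp K)).hom.hom
  let gc : Fin 9 → (N₉ →ₗ[Wᵐᵒᵖ] N₂) := fun j => (G.map (fc K j)).hom.hom
  obtain ⟨hinj, hexact, hsurj⟩ := hex _ _ _ (fi K) (fp K) (fi_fp_short K)
  change Function.Injective gi at hinj
  change Function.Exact gi gp at hexact
  change Function.Surjective gp at hsurj
  obtain ⟨τ, hτ⟩ := LinearMap.exists_leftInverse_of_injective (gi.restrictScalars K)
    (LinearMap.ker_eq_bot.2 hinj)
  obtain ⟨σ, hσ⟩ := LinearMap.exists_rightInverse_of_surjective (gp.restrictScalars K)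
    (LinearMap.range_eq_top.2 hsurj)
  have hτ' : ∀ m, τ (gi m) = m := fun m => congrArg (fun f => f m) hτ
  have hσ' : ∀ n, gp (σ n) = n := fun n => congrArg (fun f => f n) hσ
  have hgτ : ∀ e : E, gp e = 0 → gi (τ e) = e := by
    intro e he
    obtain ⟨m, rfl⟩ := (hexact e).1 he
    rw [hτ']
  let δ : Wᵐᵒᵖ → (N₁ →ₗ[K] N₉) := fun s =>
    τ ∘ₗ ((lact (K := K) E s) ∘ₗ σ - σ ∘ₗ (lact (K := K) N₁ s))
  have hδ : ∀ s n, gi (δ s n) = s • σ n - σ (s • n) := by
    intro s n
    apply hgτ
    change gp (s • σ n - σ (s • n)) = 0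
    rw [map_sub, map_smul, hσ', hσ', sub_self]
  have hδmul : ∀ s t n, δ (s * t) n = s • δ t n + δ s (t • n) := by
    intro s t n
    apply hinj
    rw [map_add, map_smul, hδ, hδ, hδ, mul_smul, mul_smul, smul_sub]
    abel
  let D : Fin 9 → Wᵐᵒᵖ →ₗ[K] (N₁ →ₗ[K] N₂) := fun i =>
    { toFun := fun s => ((gc i).restrictScalars K) ∘ₗ δ s
      map_add' := by
        intro s t
        apply LinearMap.ext
        intro n
        change gc i (τ ((s + t) • σ n - σ ((s + t) • n))) =
          gc i (τ (s • σ n - σ (s • n))) + gc i (τ (t • σ n - σ (t • n)))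
        rw [← map_add, ← map_add, add_smul, add_smul, map_add]
        congr 2
        abel
      map_smul' := by
        intro c s
        apply LinearMap.ext
        intro n
        change gc i (τ ((c • s) • σ n - σ ((c • s) • n))) =
          c • gc i (τ (s • σ n - σ (s • n)))
        have h0 : (c • s) • σ n - σ ((c • s) • n) = c • (s • σ n - σ (s • n)) := by
          rw [smul_assoc, smul_assoc, LinearMap.map_smul σ, smul_sub]
        rw [h0, LinearMap.map_smul τ]
        exact ((gc i).restrictScalars K).map_smul c _ }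
  have hD : ∀ i s n, D i s n = gc i (δ s n) := fun i s n => rfl
  refine ⟨{
    N₁ := N₁
    N₂ := N₂
    D := D
    D_mul := ?_
    brick₁ := ?_
    brick₂ := ?_
    hom₁₂ := ?_
    hom₂₁ := ?_
    indep := ?_
    ne₁ := ?_
    ne₂ := ?_ }⟩
  · intro i s t n
    rw [hD, hD, hD, hδmul, map_add, map_smul]
  · intro f
    obtain ⟨g, hg⟩ := G.map_surjective
      (ObjectProperty.homMk (ModuleCat.ofHom f) : G.obj (M1 K) ⟶ G.obj (M1 K))
    obtain ⟨c, rfl⟩ := M1_endo K g
    refine ⟨c, fun n => ?_⟩
    rw [Functor.map_smul, G.map_id] at hg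
    have h1 := congrArg (fun k => k.hom.hom n) hg
    exact h1.symm
  · intro f
    obtain ⟨g, hg⟩ := G.map_surjective
      (ObjectProperty.homMk (ModuleCat.ofHom f) : G.obj (M2 K) ⟶ G.obj (M2 K))
    obtain ⟨c, rfl⟩ := M2_endo K g
    refine ⟨c, fun n => ?_⟩
    rw [Functor.map_smul, G.map_id] at hg
    have h1 := congrArg (fun k => k.hom.hom n) hg
    exact h1.symm
  · intro f
    obtain ⟨g, hg⟩ := G.map_surjective
      (ObjectProperty.homMk (ModuleCat.ofHom f) : G.obj (M1 K) ⟶ G.obj (M2 K))
    rw [M1_M2 K g, Functor.map_zero] at hg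
    apply LinearMap.ext
    intro n
    have h1 := congrArg (fun k => k.hom.hom n) hg
    exact h1.symm
  · intro f
    obtain ⟨g, hg⟩ := G.map_surjective
      (ObjectProperty.homMk (ModuleCat.ofHom f) : G.obj (M2 K) ⟶ G.obj (M1 K))
    rw [M2_M1 K g, Functor.map_zero] at hg
    apply LinearMap.ext
    intro n
    have h1 := congrArg (fun k => k.hom.hom n) hg
    exact h1.symm
  · rintro c ⟨b, hb⟩
    let q : N₉ →ₗ[Wᵐᵒᵖ] N₂ := (G.map (∑ j, c j • fc K j)).hom.hom
    have hq : ∀ m, q m = ∑ j, c j • gc j m := by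
      intro m
      have hs : ∀ s : Finset (Fin 9), (G.map (∑ j ∈ s, c j • fc K j)).hom.hom m =
          ∑ j ∈ s, c j • gc j m := by
        intro s
        induction s using Finset.induction_on with
        | empty => simp
        | insert a s ha ih =>
          rw [Finset.sum_insert ha, Finset.sum_insert ha, Functor.map_add, Functor.map_smul, ← ih]
          rfl
      exact hs _
    let ψ₀ : E →ₗ[K] N₂ := (q.restrictScalars K) ∘ₗ τ ∘ₗ
      (LinearMap.id - σ ∘ₗ (gp.restrictScalars K)) + b ∘ₗ (gp.restrictScalars K)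
    have hψ₀ : ∀ e, ψ₀ e = q (τ (e - σ (gp e))) + b (gp e) := fun e => rfl
    have hψi : ∀ m, ψ₀ (gi m) = q m := by
      intro m
      have h1 : gp (gi m) = 0 := (hexact _).2 ⟨m, rfl⟩
      rw [hψ₀, h1, map_zero, map_zero, sub_zero, hτ', add_zero]
    have hψσ : ∀ n, ψ₀ (σ n) = b n := by
      intro n
      rw [hψ₀, hσ', sub_self, map_zero, map_zero, zero_add]
    have hdec : ∀ e : E, e = gi (τ (e - σ (gp e))) + σ (gp e) := by
      intro e
      rw [hgτ]
      · abel
      · rw [map_sub, hσ', sub_self]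
    let ψ : E →ₗ[Wᵐᵒᵖ] N₂ :=
      { toFun := ψ₀
        map_add' := fun x y => map_add ψ₀ x y
        map_smul' := by
          intro s e
          change ψ₀ (s • e) = s • ψ₀ e
          have h1 : ∀ n, ψ₀ (s • σ n) = s • ψ₀ (σ n) := by
            intro n
            have h2 : s • σ n = gi (δ s n) + σ (s • n) := by rw [hδ]; abel
            rw [h2, map_add, hψi, hψσ, hψσ, hq]
            have h3 := hb s n
            have h4 : ∑ i, c i • D i s n = ∑ j, c j • gc j (δ s n) := rfl
            rw [← h4, h3]; abel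
          rw [hdec e, smul_add, map_add, map_add, smul_add, h1, ← map_smul gi, hψi, hψi,
            map_smul] }
    obtain ⟨g, hg⟩ := G.map_surjective
      (ObjectProperty.homMk (ModuleCat.ofHom ψ) : G.obj (Mu K) ⟶ G.obj (M2 K))
    apply indep_classes K c g
    apply G.map_injective
    rw [G.map_comp, hg]
    apply ObjectProperty.hom_ext
    apply ModuleCat.hom_ext
    apply LinearMap.ext
    intro m
    exact hψi m
  · by_contra hcon
    rw [not_nontrivial_iff_subsingleton] at hcon
    have h1 : 𝟙 (M1 K) = 0 := by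
      apply G.map_injective
      rw [G.map_id, Functor.map_zero]
      apply ObjectProperty.hom_ext
      apply ModuleCat.hom_ext
      apply LinearMap.ext
      intro m
      exact Subsingleton.elim (α := N₁) _ _
    have h2 := congrArg (fun k => fmLin k (1 : K)) h1
    exact one_ne_zero (α := K) h2
  · by_contra hcon
    rw [not_nontrivial_iff_subsingleton] at hcon
    have h1 : 𝟙 (M2 K) = 0 := by
      apply G.map_injective
      rw [G.map_id, Functor.map_zero]
      apply ObjectProperty.hom_ext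
      apply ModuleCat.hom_ext
      apply LinearMap.ext
      intro m
      exact Subsingleton.elim (α := N₂) _ _
    have h2 := congrArg (fun k : M2 K ⟶ M2 K => (fmLin k (1 : Fin 11 → K)) (0 : Fin 11)) h1
    exact one_ne_zero (α := K) h2

end Pool.Agent.Helper45.Wild
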