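import Mathlib
import Pool.Agent.Helper45.Wild.Defs

/-! The preadditive structure on comodules. -/

namespace Pool.Agent.Helper45.Wild

universe u

open CategoryTheory TensorProduct
open scoped ModuleCat

namespace Comod

variable {K : Type u} [Field K] {C : Type u} [AddCommGroup C] [Module K C] [Coalgebra K C]

theorem hom_ext {X Y : Comod K C} {f g : X ⟶ Y} (h : Hom.lin f = Hom.lin g) : f = g := by
  have h' : ∀ (f g : Hom X Y), f.lin = g.lin → f = g := by
    rintro ⟨f, hf⟩ ⟨g, hg⟩ h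
    cases h
    rfl
  exact h' f g h

@[simp] theorem lin_id (X : Comod K C) : Hom.lin (𝟙 X) = LinearMap.id := rfl

@[simp] theorem lin_comp {X Y Z : Comod K C} (f : X ⟶ Y) (g : Y ⟶ Z) :
    Hom.lin (f ≫ g) = Hom.lin g ∘ₗ Hom.lin f := rfl

theorem lin_comm {X Y : Comod K C} (f : X ⟶ Y) :
    ((Hom.lin f).lTensor C) ∘ₗ X.coact = Y.coact ∘ₗ Hom.lin f :=
  LinearMap.ext (Hom.isHom f)

/-- Constructor of comodule maps. -/
def homMk {X Y : Comod K C} (f : X.carrier →ₗ[K] Y.carrier)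
    (h : (f.lTensor C) ∘ₗ X.coact = Y.coact ∘ₗ f) : X ⟶ Y :=
  (⟨f, fun x => congrArg (fun k => k x) h⟩ : Hom X Y)

@[simp] theorem lin_homMk {X Y : Comod K C} (f : X.carrier →ₗ[K] Y.carrier)
    (h : (f.lTensor C) ∘ₗ X.coact = Y.coact ∘ₗ f) : Hom.lin (homMk f h) = f := rfl

/-- The space of comodule maps, as a subspace of the space of linear maps. -/
def homSub (X Y : Comod K C) : Submodule K (X.carrier →ₗ[K] Y.carrier) where
  carrier := {f | (f.lTensor C) ∘ₗ X.coact = Y.coact ∘ₗ f}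
  zero_mem' := by simp
  add_mem' := by
    intro f g hf hg
    change ((f + g).lTensor C) ∘ₗ X.coact = Y.coact ∘ₗ (f + g)
    have hf' : (f.lTensor C) ∘ₗ X.coact = Y.coact ∘ₗ f := hf
    have hg' : (g.lTensor C) ∘ₗ X.coact = Y.coact ∘ₗ g := hg
    rw [LinearMap.lTensor_add, LinearMap.add_comp, LinearMap.comp_add, hf', hg']
  smul_mem' := by
    intro c f hf
    change ((c • f).lTensor C) ∘ₗ X.coact = Y.coact ∘ₗ (c • f)
    have hf' : (f.lTensor C) ∘ₗ X.coact = Y.coact ∘ₗ f := hf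
    rw [LinearMap.lTensor_smul, LinearMap.smul_comp, LinearMap.comp_smul, hf']

/-- The equivalence with the subspace. -/
def homEquiv (X Y : Comod K C) : (X ⟶ Y) ≃ homSub X Y where
  toFun f := ⟨Hom.lin f, lin_comm f⟩
  invFun f := homMk f.1 f.2
  left_inv _ := rfl
  right_inv _ := rfl

instance instAdd (X Y : Comod K C) : AddCommGroup (X ⟶ Y) := (homEquiv X Y).addCommGroup

instance : Preadditive (Comod K C) where
  homGroup X Y := instAdd X Y
  add_comp X Y Z f f' g := by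
    apply hom_ext
    change Hom.lin g ∘ₗ (Hom.lin f + Hom.lin f') = Hom.lin g ∘ₗ Hom.lin f + Hom.lin g ∘ₗ Hom.lin f'
    rw [LinearMap.comp_add]
  comp_add X Y Z f g g' := by
    apply hom_ext
    change (Hom.lin g + Hom.lin g') ∘ₗ Hom.lin f = Hom.lin g ∘ₗ Hom.lin f + Hom.lin g' ∘ₗ Hom.lin f
    rw [LinearMap.add_comp]

@[simp] theorem lin_add {X Y : Comod K C} (f g : X ⟶ Y) :
    Hom.lin (f + g) = Hom.lin f + Hom.lin g := rfl

@[simp] theorem lin_zero {X Y : Comod K C} : Hom.lin (0 : X ⟶ Y) = 0 := rfl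

@[simp] theorem lin_sub {X Y : Comod K C} (f g : X ⟶ Y) :
    Hom.lin (f - g) = Hom.lin f - Hom.lin g := rfl

end Comod

end Pool.Agent.Helper45.Wild
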