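import Mathlib

/-! Ladder systems with stationary labels on a successor cardinal. -/

namespace Pool.Agent.Helper45.Wild

universe u

open Cardinal Order

/-- The combinatorial data: a well ordered set `L` (a successor cardinal), a family `S` of limit
points with ladders, labels with stationary fibres, and an indexing of `I` by nodes. -/
structure Ladder (I : Type u) where
  L : Type u
  lin : LinearOrder L
  wf : WellFoundedLT L
  nomax : NoMaxOrder L
  S : Type u
  lim : S → L
  lim_inj : Function.Injective lim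
  seq : S → ℕ → L
  mono : ∀ β, StrictMono (seq β)
  lt : ∀ β n, seq β n < lim β
  cofin : ∀ β τ, τ < lim β → ∃ n, τ < seq β n
  lab : S → L × List L
  guess : ∀ (t : L × List L) (h : L → L), ∃ β, lab β = t ∧ ∀ τ < lim β, h τ ≤ lim β
  idx : L × List L → Option I
  idx_surj : Function.Surjective idx

theorem exists_ladder (I : Type u) : Nonempty (Ladder I) := by
  classical
  -- the cardinals
  let κ : Cardinal.{u} := max ℵ₀ #I
  have hκ0 : ℵ₀ ≤ κ := le_max_left _ _
  have hκI : #I ≤ κ := le_max_right _ _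
  let c : Cardinal.{u} := succ κ
  have hc0 : ℵ₀ ≤ c := hκ0.trans (le_succ κ)
  have hreg : c.IsRegular := isRegular_succ hκ0
  let L : Type u := c.ord.ToType
  have hL : #L = c := by simp [L]
  have hcof : cof L = c := by
    have := Ordinal.cof_toType c.ord
    rw [hreg.cof_ord] at this
    exact this
  have hLinf : Infinite L := by
    rw [Cardinal.infinite_iff, hL]; exact hc0
  have hnomax : NoMaxOrder L := by
    have : NoTopOrder L := by
      rw [← one_lt_cof_iff, hcof]
      exact lt_of_lt_of_le one_lt_aleph0 hc0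
    exact (noTopOrder_iff_noMaxOrder L).1 this
  -- bounded sets
  have hbdd : ∀ s : Set L, #s ≤ κ → ∃ b, ∀ y ∈ s, y < b := by
    intro s hs
    by_contra hcon
    have hcof' : IsCofinal s := by
      by_contra h
      exact hcon (not_isCofinal_iff.1 h)
    have h1 := cof_le hcof'
    rw [hcof] at h1
    exact absurd (h1.trans hs) (not_le.2 (lt_succ κ))
  have hIio : ∀ b : L, #(Set.Iio b) ≤ κ := by
    intro b
    exact lt_succ_iff.1 (Cardinal.mk_Iio_toType_ord_lt b)
  have hIic : ∀ b : L, #(Set.Iic b) ≤ κ := by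
    intro b
    obtain ⟨b', hb'⟩ := exists_gt b
    refine (Cardinal.mk_le_mk_of_subset ?_).trans (hIio b')
    intro x hx
    exact lt_of_le_of_lt hx hb'
  -- limit points
  let S : Type u := {b : L // ∃ u : ℕ → L, StrictMono u ∧ (∀ n, u n < b) ∧
    ∀ τ < b, ∃ n, τ < u n}
  have hclosed : ∀ (η : L) (h : L → L), ∃ β : S, η < β.1 ∧ ∀ τ < β.1, h τ ≤ β.1 := by
    intro η h
    have hstep : ∀ v : L, ∃ w : L, v < w ∧ ∀ τ ≤ v, h τ < w := by
      intro v
      obtain ⟨b, hb⟩ := hbdd (h '' Set.Iic v) (mk_image_le.trans (hIic v))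
      obtain ⟨b', hb'⟩ := exists_gt (max v b)
      refine ⟨b', lt_of_le_of_lt (le_max_left _ _) hb', fun τ hτ => ?_⟩
      exact (hb _ ⟨τ, hτ, rfl⟩).trans (lt_of_le_of_lt (le_max_right _ _) hb')
    choose w hw1 hw2 using hstep
    let v : ℕ → L := fun n => Nat.rec (w η) (fun _ x => w x) n
    have hv : StrictMono v := strictMono_nat_of_lt_succ (fun n => hw1 _)
    have hvb : ∃ b, ∀ n, v n < b := by
      obtain ⟨b, hb⟩ := hbdd (Set.range v) (by
        refine le_trans ?_ hκ0
        rw [Cardinal.le_aleph0_iff_set_countable]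
        exact Set.countable_range v)
      exact ⟨b, fun n => hb _ ⟨n, rfl⟩⟩
    let P : Set L := {b | ∀ n, v n < b}
    have hP : P.Nonempty := hvb
    let β := WellFounded.min (wellFounded_lt (α := L)) P hP
    have hβ : ∀ n, v n < β := WellFounded.min_mem (wellFounded_lt (α := L)) P hP
    have hβ2 : ∀ τ < β, ∃ n, τ < v n := by
      intro τ hτ
      by_contra hcon
      push Not at hcon
      have : τ ∈ P := fun n => lt_of_lt_of_le (hv (Nat.lt_succ_self n)) (hcon (n+1))
      exact WellFounded.not_lt_min (wellFounded_lt (α := L)) P this hτ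
    refine ⟨⟨β, v, hv, hβ, hβ2⟩, (hw1 η).trans (hβ 0), ?_⟩
    intro τ hτ
    obtain ⟨n, hn⟩ := hβ2 τ hτ
    exact ((hw2 (v n) τ hn.le).trans (hβ (n+1))).le
  -- labels
  let T : Type u := L × List L
  have hT : #T = c := by
    simp [T, hL, Cardinal.mul_eq_self hc0]
  let Kp : Type u := κ.out
  have hKp : #Kp = κ := Cardinal.mk_out κ
  have hemb : ∀ b : L, Nonempty (Set.Iio b ↪ Kp) := by
    intro b
    rw [← Cardinal.le_def, hKp]
    exact hIio b
  let e : ∀ b : L, Set.Iio b ↪ Kp := fun b => (hemb b).some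
  have hstat : ∀ η : L, ∃ ξ : Kp, ∀ h : L → L, ∃ β : S, (∃ hη : η < β.1, e β.1 ⟨η, hη⟩ = ξ) ∧
      ∀ τ < β.1, h τ ≤ β.1 := by
    intro η
    by_contra hcon
    push Not at hcon
    choose hh hhh using hcon
    have hsup : ∀ τ : L, ∃ b, ∀ ξ, hh ξ τ < b := by
      intro τ
      obtain ⟨b, hb⟩ := hbdd (Set.range (fun ξ => hh ξ τ)) (mk_range_le.trans hKp.le)
      exact ⟨b, fun ξ => hb _ ⟨ξ, rfl⟩⟩
    choose H hH using hsup
    obtain ⟨β, hβ1, hβ2⟩ := hclosed η H
    obtain ⟨τ, hτ1, hτ2⟩ := hhh (e β.1 ⟨η, hβ1⟩) β ⟨hβ1, rfl⟩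
    exact absurd ((hH τ (e β.1 ⟨η, hβ1⟩)).le.trans (hβ2 τ hτ1)) (not_le.2 hτ2)
  choose ξ hξ using hstat
  obtain ⟨x0, hx0⟩ := Cardinal.infinite_pigeonhole ξ (by rw [hL]; exact hc0) (by
    rw [hL, hreg.cof_ord, hKp]; exact lt_succ κ)
  have hj : Nonempty (T ↪ (ξ ⁻¹' {x0} : Set L)) := by
    rw [← Cardinal.le_def, hT, hx0, hL]
  obtain ⟨j⟩ := hj
  have hjx : ∀ t, ξ (j t).1 = x0 := fun t => (j t).2
  let Q : S → T → Prop := fun β t => ∃ hη : (j t).1 < β.1, e β.1 ⟨(j t).1, hη⟩ = x0
  have hQ : ∀ β t t', Q β t → Q β t' → t = t' := by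
    rintro β t t' ⟨h1, h2⟩ ⟨h3, h4⟩
    have := (e β.1).injective (h2.trans h4.symm)
    have h5 : (j t).1 = (j t').1 := by simpa using this
    exact j.injective (Subtype.ext h5)
  obtain ⟨a0⟩ : Nonempty L := inferInstance
  let lab : S → T := fun β => if h : ∃ t, Q β t then h.choose else (a0, [])
  have hlab : ∀ β t, Q β t → lab β = t := by
    intro β t ht
    have h : ∃ t, Q β t := ⟨t, ht⟩
    have : lab β = h.choose := by simp only [lab]; rw [dif_pos h]
    rw [this]
    exact hQ β _ _ h.choose_spec ht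
  have hguess : ∀ (t : T) (h : L → L), ∃ β : S, lab β = t ∧ ∀ τ < β.1, h τ ≤ β.1 := by
    intro t h
    obtain ⟨β, ⟨h1, h2⟩, h3⟩ := hξ (j t).1 h
    refine ⟨β, hlab β t ⟨h1, ?_⟩, h3⟩
    rw [h2, hjx]
  -- index
  have hidx : Nonempty (Option I ↪ T) := by
    rw [← Cardinal.le_def, hT, Cardinal.mk_option]
    refine le_trans (add_le_add hκI (le_of_lt (lt_of_lt_of_le one_lt_aleph0 hκ0))) ?_
    rw [Cardinal.add_eq_self hκ0]
    exact le_succ κ
  obtain ⟨g⟩ := hidx
  exact ⟨{
    L := L
    lin := inferInstance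
    wf := inferInstance
    nomax := hnomax
    S := S
    lim := Subtype.val
    lim_inj := Subtype.val_injective
    seq := fun β => β.2.choose
    mono := fun β => β.2.choose_spec.1
    lt := fun β => β.2.choose_spec.2.1
    cofin := fun β => β.2.choose_spec.2.2
    lab := lab
    guess := hguess
    idx := Function.invFun g
    idx_surj := Function.invFun_surjective g.injective }⟩

end Pool.Agent.Helper45.Wild
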