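import Mathlib
import Pool.Agent.Helper45.Wild.Ladder

/-! The rigid core: nine operators on `J →₀ X` whose common intertwiners are exactly the maps
induced from the intertwiners of the given family of operators on `X`. -/

namespace Pool.Agent.Helper45.Wild

universe u

open Finsupp (single mapDomain mapDomain_single mapDomain_add lsingle_apply)

/-- Partial function operator. -/
noncomputable def pop {K : Type u} [Field K] {J : Type u} {X : Type u} [AddCommGroup X]
    [Module K X] (p : J → Option J) : (J →₀ X) →ₗ[K] (J →₀ X) :=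
  Finsupp.lsum K (fun j => match p j with
    | some j' => Finsupp.lsingle j'
    | none => 0)

section Pop

variable {K : Type u} [Field K] {J : Type u} {X Y : Type u} [AddCommGroup X]
    [Module K X] [AddCommGroup Y] [Module K Y]

theorem pop_single_some (p : J → Option J) {j j' : J} (h : p j = some j') (x : X) :
    pop (K := K) p (single j x) = single j' x := by
  simp [pop, h]

theorem pop_single_none (p : J → Option J) {j : J} (h : p j = none) (x : X) :
    pop (K := K) p (single j x) = 0 := by
  simp [pop, h]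

theorem pop_ne_zero (p : J → Option J) (v : J →₀ X) (j' : J)
    (h : pop (K := K) p v j' ≠ 0) : ∃ j, p j = some j' ∧ v j ≠ 0 := by
  classical
  by_contra hcon
  push Not at hcon
  apply h
  rw [pop, Finsupp.lsum_apply, Finsupp.sum, Finsupp.finsetSum_apply]
  refine Finset.sum_eq_zero (fun j hj => ?_)
  rcases hp : p j with _ | j''
  · simp
  · simp only [lsingle_apply]
    by_cases hjj : j'' = j'
    · subst hjj
      exact absurd (hcon j hp) (by simpa using hj)
    · rw [Finsupp.single_apply, if_neg hjj]

theorem pop_mapDomain {B : Type u} (p : J → Option J) (k k' : B → J)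
    (h : ∀ b, p (k b) = some (k' b)) (g : B →₀ X) :
    pop (K := K) p (mapDomain k g) = mapDomain k' g := by
  induction g using Finsupp.induction_linear with
  | zero => simp
  | add f g hf hg => rw [mapDomain_add, map_add, hf, hg, mapDomain_add]
  | single b x => rw [mapDomain_single, mapDomain_single, pop_single_some p (h b)]

theorem pop_mapRange (p : J → Option J) (f : X →ₗ[K] Y) (v : J →₀ X) :
    pop (K := K) p (Finsupp.mapRange.linearMap f v) =
      Finsupp.mapRange.linearMap f (pop (K := K) p v) := by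
  induction v using Finsupp.induction_linear with
  | zero => simp
  | add f g hf hg => simp only [map_add, hf, hg]
  | single j x =>
    rcases hp : p j with _ | j'
    · rw [pop_single_none p hp]
      simp only [Finsupp.mapRange.linearMap_apply, Finsupp.mapRange_single]
      rw [pop_single_none p hp]; simp
    · rw [pop_single_some p hp]
      simp only [Finsupp.mapRange.linearMap_apply, Finsupp.mapRange_single]
      rw [pop_single_some p hp]

theorem mapDomain_apply_of_unique {B : Type u} (k : B → J) (g : B →₀ X) (b₀ : B)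
    (h : ∀ b, g b ≠ 0 → k b = k b₀ → b = b₀) : mapDomain k g (k b₀) = g b₀ := by
  classical
  rw [mapDomain, Finsupp.sum, Finsupp.finsetSum_apply]
  by_cases h0 : g b₀ = 0
  · rw [h0]
    refine Finset.sum_eq_zero (fun b hb => ?_)
    rw [Finsupp.single_apply]
    split_ifs with hk
    · have := h b (by simpa using hb) hk
      rw [this, h0]
    · rfl
  · rw [Finset.sum_eq_single b₀]
    · simp
    · intro b hb hne
      rw [Finsupp.single_apply, if_neg]
      intro hk
      exact hne (h b (by simpa using hb) hk)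
    · intro hb
      simp at hb
      exact absurd hb h0

end Pop

/-- The index type of the basis. -/
inductive J {I : Type u} (Λ : Ladder I) : Type u
  | node (a : Λ.L) (l : List Λ.L) : J Λ
  | dd (β : Λ.S) (n : ℕ) : J Λ
  | st : J Λ

section Ops

variable {I : Type u} (Λ : Ladder I)

open J

open Classical in
/-- parent map -/
noncomputable def par : J Λ → Option (J Λ)
  | node a (b :: l) => if Λ.lin.lt a b then some (node b l) else none
  | _ => none

/-- the ladder nodes -/
def zn (β : Λ.S) : ℕ → J Λ
  | 0 => node (Λ.lab β).1 (Λ.lab β).2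
  | n + 1 => node (Λ.seq β n) []

/-- the ladder map -/
def zop : J Λ → Option (J Λ)
  | dd β n => some (zn Λ β n)
  | _ => none

/-- shift up -/
def yop : J Λ → Option (J Λ)
  | dd β n => some (dd β (n + 1))
  | _ => none

/-- shift down -/
def yop' : J Λ → Option (J Λ)
  | dd β (n + 1) => some (dd β n)
  | _ => none

/-- sum over all nodes -/
def xiop : J Λ → Option (J Λ)
  | node _ _ => some st
  | _ => none

/-- projection on the st part -/
def estar : J Λ → Option (J Λ)
  | st => some st
  | _ => none

/-- projection on the node part -/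
def enode : J Λ → Option (J Λ)
  | node a l => some (node a l)
  | _ => none

variable {K : Type u} [Field K] {X Y : Type u} [AddCommGroup X]
    [Module K X] [AddCommGroup Y] [Module K Y]

/-- the operator carrying the family of operators -/
noncomputable def phi (a : Option I → X →ₗ[K] X) : (J Λ →₀ X) →ₗ[K] (J Λ →₀ X) :=
  Finsupp.lsum K (fun j => match j with
    | node t l => (Finsupp.lsingle st) ∘ₗ a (Λ.idx (t, l))
    | _ => 0)

/-- the nine operators -/
noncomputable def theta (a : Option I → X →ₗ[K] X) : Fin 9 → (J Λ →₀ X) →ₗ[K] (J Λ →₀ X) :=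
  ![LinearMap.id, pop (par Λ), pop (zop Λ), pop (yop Λ), pop (yop' Λ), pop (xiop Λ),
    phi Λ a, pop (estar Λ), pop (enode Λ)]

theorem theta_mapRange (a : Option I → X →ₗ[K] X) (b : Option I → Y →ₗ[K] Y) (f : X →ₗ[K] Y)
    (hf : ∀ o x, f (a o x) = b o (f x)) (i : Fin 9) (v : J Λ →₀ X) :
    theta Λ b i (Finsupp.mapRange.linearMap f v) =
      Finsupp.mapRange.linearMap f (theta Λ a i v) := by
  fin_cases i
  · rfl
  · exact pop_mapRange _ _ _
  · exact pop_mapRange _ _ _
  · exact pop_mapRange _ _ _
  · exact pop_mapRange _ _ _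
  · exact pop_mapRange _ _ _
  · change phi Λ b (Finsupp.mapRange.linearMap f v) = Finsupp.mapRange.linearMap f (phi Λ a v)
    induction v using Finsupp.induction_linear with
    | zero => simp
    | add f g hf hg => simp only [map_add, hf, hg]
    | single j x =>
      rcases j with ⟨t, l⟩ | ⟨β, n⟩ | _
      · simp [phi, hf]
      · simp [phi]
      · simp [phi]
  · exact pop_mapRange _ _ _
  · exact pop_mapRange _ _ _

section Core

variable (a : Option I → X →ₗ[K] X) (b : Option I → Y →ₗ[K] Y)
  (f : (J Λ →₀ X) →ₗ[K] (J Λ →₀ Y)) (hf : ∀ i v, f (theta Λ a i v) = theta Λ b i (f v))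

include hf

theorem comm_par (v : J Λ →₀ X) : f (pop (K := K) (par Λ) v) = pop (K := K) (par Λ) (f v) := hf 1 v
theorem comm_z (v : J Λ →₀ X) : f (pop (K := K) (zop Λ) v) = pop (K := K) (zop Λ) (f v) := hf 2 v
theorem comm_y (v : J Λ →₀ X) : f (pop (K := K) (yop Λ) v) = pop (K := K) (yop Λ) (f v) := hf 3 v
theorem comm_y' (v : J Λ →₀ X) : f (pop (K := K) (yop' Λ) v) = pop (K := K) (yop' Λ) (f v) := hf 4 v
theorem comm_xi (v : J Λ →₀ X) : f (pop (K := K) (xiop Λ) v) = pop (K := K) (xiop Λ) (f v) := hf 5 v
theorem comm_phi (v : J Λ →₀ X) : f (phi Λ a v) = phi Λ b (f v) := hf 6 v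
theorem comm_estar (v : J Λ →₀ X) :
    f (pop (K := K) (estar Λ) v) = pop (K := K) (estar Λ) (f v) := hf 7 v
theorem comm_enode (v : J Λ →₀ X) :
    f (pop (K := K) (enode Λ) v) = pop (K := K) (enode Λ) (f v) := hf 8 v

/-- `f` maps the st part to the st part. -/
theorem star_part (m : X) (j : J Λ) (h : f (single st m) j ≠ 0) : j = st := by
  have h1 := comm_estar Λ a b f hf (single st m)
  rw [pop_single_some (estar Λ) (j' := st) rfl] at h1
  rw [h1] at h
  obtain ⟨j', hj', -⟩ := pop_ne_zero _ _ _ h
  rcases j' with ⟨t, l⟩ | ⟨β, n⟩ | _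
  · simp [estar] at hj'
  · simp [estar] at hj'
  · simpa [estar] using hj'.symm

/-- `f` maps the node part to the node part. -/
theorem node_part (t : Λ.L) (l : List Λ.L) (m : X) (j : J Λ) (h : f (single (node t l) m) j ≠ 0) :
    ∃ t' l', j = node t' l' := by
  have h1 := comm_enode Λ a b f hf (single (node t l) m)
  rw [pop_single_some (enode Λ) (j' := node t l) rfl] at h1
  rw [h1] at h
  obtain ⟨j', hj', -⟩ := pop_ne_zero _ _ _ h
  rcases j' with ⟨t, l⟩ | ⟨β, n⟩ | _
  · exact ⟨t, l, by simpa [enode] using hj'.symm⟩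
  · simp [enode] at hj'
  · simp [enode] at hj'

/-- `f` maps the ladder part to the ladder part. -/
theorem dd_part (β : Λ.S) (n : ℕ) (m : X) (j : J Λ) (h : f (single (dd β n) m) j ≠ 0) :
    ∃ β' n', j = dd β' n' := by
  have h1 := comm_enode Λ a b f hf (single (dd β n) m)
  have h2 := comm_estar Λ a b f hf (single (dd β n) m)
  rw [pop_single_none (enode Λ) rfl, map_zero] at h1
  rw [pop_single_none (estar Λ) rfl, map_zero] at h2
  rcases j with ⟨t, l⟩ | ⟨β', n'⟩ | _
  · exfalso
    apply h
    have h3 : ∀ v : J Λ →₀ Y, pop (K := K) (enode Λ) v (node t l) = v (node t l) := by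
      intro v
      induction v using Finsupp.induction_linear with
      | zero => simp
      | add f g hf hg => simp only [map_add, Finsupp.add_apply, hf, hg]
      | single j x =>
        rcases j with ⟨t, l⟩ | ⟨β, n⟩ | _
        · rw [pop_single_some (enode Λ) (j' := node t l) rfl]
        · rw [pop_single_none (enode Λ) rfl]
          classical
          simp [Finsupp.single_apply]
        · rw [pop_single_none (enode Λ) rfl]
          classical
          simp [Finsupp.single_apply]
    rw [← h3, ← h1]; rfl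
  · exact ⟨β', n', rfl⟩
  · exfalso
    apply h
    have h3 : ∀ v : J Λ →₀ Y, pop (K := K) (estar Λ) v st = v st := by
      intro v
      induction v using Finsupp.induction_linear with
      | zero => simp
      | add f g hf hg => simp only [map_add, Finsupp.add_apply, hf, hg]
      | single j x =>
        rcases j with ⟨t, l⟩ | ⟨β, n⟩ | _
        · rw [pop_single_none (estar Λ) rfl]
          classical
          simp [Finsupp.single_apply]
        · rw [pop_single_none (estar Λ) rfl]
          classical
          simp [Finsupp.single_apply]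
        · rw [pop_single_some (estar Λ) (j' := st) rfl]
    rw [← h3, ← h2]; rfl

/-- The rank filtration is respected. -/
theorem rank_le (m : X) : ∀ (ρ : Λ.L) (t : Λ.L) (l : List Λ.L) (l' : List Λ.L),
    f (single (node t l) m) (node ρ l') ≠ 0 → ¬ Λ.lin.lt ρ t := by
  let _ := Λ.lin
  have := Λ.wf
  intro ρ
  induction ρ using WellFoundedLT.induction with
  | ind ρ ih =>
    intro t l l' h hlt
    have hp : par Λ (node ρ (t :: l)) = some (node t l) := by
      simp only [par]
      rw [if_pos hlt]
    have h1 := comm_par Λ a b f hf (single (node ρ (t :: l)) m)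
    rw [pop_single_some (par Λ) hp] at h1
    rw [h1] at h
    obtain ⟨j', hj', hne⟩ := pop_ne_zero _ _ _ h
    rcases j' with ⟨t₁, l₁⟩ | ⟨β, n⟩ | _
    · rcases l₁ with _ | ⟨b₁, l₁⟩
      · simp [par] at hj'
      · simp only [par] at hj'
        split_ifs at hj' with hlt'
        simp only [Option.some.injEq, J.node.injEq] at hj'
        obtain ⟨rfl, rfl⟩ := hj'
        exact ih t₁ hlt' _ _ _ hne hlt'
    · simp [par] at hj'
    · simp [par] at hj'

/-- The coefficient function of `f` on the ladder part. -/
theorem exists_coeff (β : Λ.S) (m : X) : ∃ g : Λ.S →₀ Y, ∀ n,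
    f (single (dd β n) m) = mapDomain (fun γ => dd γ n) g ∧
    f (single (zn Λ β n) m) = mapDomain (fun γ => zn Λ γ n) g := by
  have hinj : Function.Injective (fun γ : Λ.S => (dd γ 0 : J Λ)) := by
    intro γ γ' h
    simpa using h
  let g : Λ.S →₀ Y := (f (single (dd β 0) m)).comapDomain (fun γ => dd γ 0) hinj.injOn
  have hy' := comm_y' Λ a b f hf (single (dd β 0) m)
  rw [pop_single_none (yop' Λ) rfl, map_zero] at hy'
  have hkey : ∀ (v : J Λ →₀ Y) (γ : Λ.S) (n : ℕ), pop (K := K) (yop' Λ) v (dd γ n) = v (dd γ (n+1)) := by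
    intro v γ n
    induction v using Finsupp.induction_linear with
    | zero => simp
    | add f g hf hg => simp only [map_add, Finsupp.add_apply, hf, hg]
    | single j x =>
      classical
      rcases j with ⟨t, l⟩ | ⟨β, k⟩ | _
      · rw [pop_single_none (yop' Λ) rfl]
        simp [Finsupp.single_apply]
      · rcases k with _ | k
        · rw [pop_single_none (yop' Λ) rfl]
          simp [Finsupp.single_apply]
        · rw [pop_single_some (yop' Λ) (j' := dd β k) rfl]
          simp [Finsupp.single_apply]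
      · rw [pop_single_none (yop' Λ) rfl]
        simp [Finsupp.single_apply]
  have hbase : mapDomain (fun γ => dd γ 0) g = f (single (dd β 0) m) := by
    apply Finsupp.mapDomain_comapDomain _ hinj
    intro j hj
    have hj0 : f (single (dd β 0) m) j ≠ 0 := by simpa using hj
    obtain ⟨β', n', rfl⟩ := dd_part Λ a b f hf β 0 m j hj0
    rcases n' with _ | n'
    · exact ⟨β', rfl⟩
    · exfalso
      apply hj0
      rw [← hkey, ← hy']; rfl
  have hd : ∀ n, f (single (dd β n) m) = mapDomain (fun γ => dd γ n) g := by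
    intro n
    induction n with
    | zero => exact hbase.symm
    | succ n ih =>
      have h1 := comm_y Λ a b f hf (single (dd β n) m)
      rw [pop_single_some (yop Λ) (j' := dd β (n+1)) rfl, ih,
        pop_mapDomain (yop Λ) _ (fun γ => dd γ (n+1)) (fun γ => rfl)] at h1
      exact h1
  refine ⟨g, fun n => ⟨hd n, ?_⟩⟩
  have h1 := comm_z Λ a b f hf (single (dd β n) m)
  rw [pop_single_some (zop Λ) (j' := zn Λ β n) rfl, hd n,
    pop_mapDomain (zop Λ) _ (fun γ => zn Λ γ n) (fun γ => rfl)] at h1
  exact h1

omit hf in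
/-- Ladders of distinct points are eventually distinct. -/
theorem eventually_ne {γ γ' : Λ.S} (h : γ ≠ γ') : ∃ N, ∀ n ≥ N, Λ.seq γ n ≠ Λ.seq γ' n := by
  let _ := Λ.lin
  have hne : Λ.lim γ ≠ Λ.lim γ' := fun h' => h (Λ.lim_inj h')
  rcases lt_or_gt_of_ne hne with hlt | hlt
  · obtain ⟨N, hN⟩ := Λ.cofin γ' _ hlt
    refine ⟨N, fun n hn => ?_⟩
    have h1 : Λ.seq γ' N ≤ Λ.seq γ' n := (Λ.mono γ').monotone hn
    have h2 := Λ.lt γ n
    exact ((h2.trans hN).trans_le h1).ne
  · obtain ⟨N, hN⟩ := Λ.cofin γ _ hlt
    refine ⟨N, fun n hn => ?_⟩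
    have h1 : Λ.seq γ N ≤ Λ.seq γ n := (Λ.mono γ).monotone hn
    have h2 := Λ.lt γ' n
    exact ((h2.trans hN).trans_le h1).ne'

omit hf in
theorem eventually_unique (g : Λ.S →₀ Y) (γ₀ : Λ.S) : ∃ N, ∀ n ≥ N, ∀ γ, g γ ≠ 0 →
    zn Λ γ (n+1) = zn Λ γ₀ (n+1) → γ = γ₀ := by
  classical
  have hN : ∀ γ : Λ.S, ∃ N, ∀ n ≥ N, zn Λ γ (n+1) = zn Λ γ₀ (n+1) → γ = γ₀ := by
    intro γ
    by_cases h : γ = γ₀
    · exact ⟨0, fun _ _ _ => h⟩
    · obtain ⟨N, hN⟩ := eventually_ne Λ h
      refine ⟨N, fun n hn heq => ?_⟩
      exfalso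
      apply hN n hn
      simpa [zn] using heq
  choose N hN using hN
  refine ⟨g.support.sup N, fun n hn γ hγ heq => ?_⟩
  exact hN γ n ((Finset.le_sup (f := N) (by simpa using hγ)).trans hn) heq

/-- The value on nodes. -/
theorem node_value (t : Λ.L) (l : List Λ.L) (m : X) :
    f (single (node t l) m) = single (node t l) (f (single st m) st) := by
  classical
  let _ := Λ.lin
  have := Λ.nomax
  -- the bounding function
  have hh : ∀ τ : Λ.L, ∃ b : Λ.L, ∀ t' l', f (single (node τ []) m) (node t' l') ≠ 0 → t' < b := by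
    intro τ
    have : Nonempty Λ.L := ⟨τ⟩
    let s : Finset Λ.L := (f (single (node τ []) m)).support.image
      (fun j => match j with
        | node t' _ => t'
        | _ => τ)
    obtain ⟨M, hM⟩ := Finset.exists_le s
    obtain ⟨b, hb⟩ := exists_gt M
    refine ⟨b, fun t' l' h => lt_of_le_of_lt (hM t' ?_) hb⟩
    rw [Finset.mem_image]
    exact ⟨node t' l', by simpa using h, rfl⟩
  choose h hh using hh
  obtain ⟨β, hβ, hcl⟩ := Λ.guess (t, l) h
  obtain ⟨g, hg⟩ := exists_coeff Λ a b f hf β m
  have hsupp : ∀ γ₀, g γ₀ ≠ 0 → γ₀ = β := by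
    intro γ₀ hγ₀
    obtain ⟨N, hN⟩ := eventually_unique Λ g γ₀
    have hcoef : ∀ n ≥ N, f (single (node (Λ.seq β n) []) m) (node (Λ.seq γ₀ n) []) ≠ 0 := by
      intro n hn
      have h1 := (hg (n+1)).2
      have h2 := mapDomain_apply_of_unique (fun γ => zn Λ γ (n+1)) g γ₀ (hN n hn)
      rw [← h1] at h2
      change f (single (node (Λ.seq β n) []) m) (node (Λ.seq γ₀ n) []) = g γ₀ at h2
      rw [h2]; exact hγ₀
    have hle : ∀ n ≥ N, Λ.seq β n ≤ Λ.seq γ₀ n := fun n hn =>
      not_lt.1 (rank_le Λ a b f hf m _ _ _ _ (hcoef n hn))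
    have hlt : ∀ n ≥ N, Λ.seq γ₀ n < Λ.lim β := fun n hn =>
      lt_of_lt_of_le (hh _ _ _ (hcoef n hn)) (hcl _ (Λ.lt β n))
    apply Λ.lim_inj
    by_contra hne
    rcases lt_or_gt_of_ne hne with hlt' | hlt'
    · obtain ⟨n0, hn0⟩ := Λ.cofin β _ hlt'
      have h1 : Λ.seq β n0 ≤ Λ.seq β (max N n0) := (Λ.mono β).monotone (le_max_right _ _)
      have h2 := hle (max N n0) (le_max_left _ _)
      have h3 := Λ.lt γ₀ (max N n0)
      exact absurd (((hn0.trans_le h1).trans_le h2).trans h3) (lt_irrefl _)
    · obtain ⟨n0, hn0⟩ := Λ.cofin γ₀ _ hlt'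
      have h1 : Λ.seq γ₀ n0 ≤ Λ.seq γ₀ (max N n0) := (Λ.mono γ₀).monotone (le_max_right _ _)
      have h2 := hlt (max N n0) (le_max_left _ _)
      exact absurd ((hn0.trans_le h1).trans h2) (lt_irrefl _)
  have hgs : g = single β (g β) := by
    ext γ
    by_cases hγ : γ = β
    · subst hγ; simp
    · rw [Finsupp.single_apply, if_neg (fun h => hγ h.symm)]
      by_contra h0
      exact hγ (hsupp γ h0)
  have h0 := (hg 0).2
  rw [hgs, mapDomain_single] at h0
  have hz : zn Λ β 0 = node t l := by simp [zn, hβ]
  rw [hz] at h0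
  have hx := comm_xi Λ a b f hf (single (node t l) m)
  rw [h0, pop_single_some (xiop Λ) (j' := st) rfl, pop_single_some (xiop Λ) (j' := st) rfl] at hx
  rw [h0, hx]
  simp

/-- The value on the st part. -/
theorem star_value (m : X) :
    f (single st m) = single st (f (single st m) st) := by
  classical
  ext j
  by_cases hj : j = st
  · subst hj; simp
  · rw [Finsupp.single_apply, if_neg (fun h => hj h.symm)]
    by_contra h0
    exact hj (star_part Λ a b f hf m j h0)

/-- The value on the ladder part. -/
theorem dd_value (β : Λ.S) (n : ℕ) (m : X) :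
    f (single (dd β n) m) = single (dd β n) (f (single st m) st) := by
  classical
  obtain ⟨g, hg⟩ := exists_coeff Λ a b f hf β m
  have hz : ∀ n, mapDomain (fun γ => zn Λ γ (n+1)) g =
      single (zn Λ β (n+1)) (f (single st m) st) := by
    intro n
    rw [← (hg (n+1)).2]
    exact node_value Λ a b f hf _ _ m
  have hgv : ∀ γ, g γ = single β (f (single st m) st) γ := by
    intro γ
    obtain ⟨N, hN⟩ := eventually_unique Λ g γ
    by_cases hγ : γ = β
    · subst hγ
      have h2 := mapDomain_apply_of_unique (fun γ => zn Λ γ (N+1)) g γ (hN N le_rfl)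
      rw [hz N] at h2
      simpa using h2.symm
    · obtain ⟨N', hN'⟩ := eventually_ne Λ hγ
      have h2 := mapDomain_apply_of_unique (fun γ => zn Λ γ ((max N N')+1)) g γ
        (hN _ (le_max_left _ _))
      rw [hz, Finsupp.single_apply, if_neg] at h2
      · rw [← h2, Finsupp.single_apply, if_neg (fun h => hγ h.symm)]
      · intro heq
        apply hN' _ (le_max_right N N')
        simpa [zn] using heq.symm
  have hgs : g = single β (f (single st m) st) := Finsupp.ext hgv
  rw [(hg n).1, hgs, mapDomain_single]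

theorem rigid : ∃ f₀ : X →ₗ[K] Y, (∀ o x, f₀ (a o x) = b o (f₀ x)) ∧
    f = Finsupp.mapRange.linearMap f₀ := by
  classical
  let f₀ : X →ₗ[K] Y := (Finsupp.lapply st) ∘ₗ f ∘ₗ (Finsupp.lsingle st)
  have hf₀ : ∀ m, f₀ m = f (single st m) st := fun m => rfl
  refine ⟨f₀, ?_, ?_⟩
  · intro o x
    obtain ⟨⟨t, l⟩, ht⟩ := Λ.idx_surj o
    have h1 := comm_phi Λ a b f hf (single (node t l) x)
    rw [node_value Λ a b f hf t l x, ← hf₀] at h1
    simp only [phi, Finsupp.lsum_single, LinearMap.comp_apply, Finsupp.lsingle_apply, ht] at h1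
    rw [star_value Λ a b f hf, ← hf₀] at h1
    have h2 := Finsupp.single_injective _ h1
    exact h2
  · apply Finsupp.lhom_ext
    intro j x
    rw [Finsupp.mapRange.linearMap_apply, Finsupp.mapRange_single, hf₀]
    rcases j with ⟨t, l⟩ | ⟨β, n⟩ | _
    · exact node_value Λ a b f hf t l x
    · exact dd_value Λ a b f hf β n x
    · exact star_value Λ a b f hf x

end Core

end Ops

end Pool.Agent.Helper45.Wild
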