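import Mathlib
import Pool.Agent.Helper45.Wild.Rigid
import Pool.Agent.Helper45.Wild.BrickData
import Pool.Agent.Helper45.Wild.ComodPre

/-! The full exact embedding of comodules into modules over a fully wild algebra. -/

namespace Pool.Agent.Helper45.Wild

universe u

open CategoryTheory TensorProduct
open scoped ModuleCat

section Coeff

variable {K : Type u} [Field K] {C : Type u} [AddCommGroup C] [Module K C] [Coalgebra K C]

/-- index set of a basis of the coalgebra -/
def BI (K : Type u) [Field K] (C : Type u) [AddCommGroup C] [Module K C] : Type u :=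
  Module.Basis.ofVectorSpaceIndex K C

/-- a basis of the coalgebra -/
noncomputable def bC (K : Type u) [Field K] (C : Type u) [AddCommGroup C] [Module K C] :
    Module.Basis (BI K C) K C := Module.Basis.ofVectorSpace K C

/-- contraction of the first factor with a coordinate functional -/
noncomputable def cf (i : BI K C) (X : Type u) [AddCommGroup X] [Module K X] :
    (C ⊗[K] X) →ₗ[K] X :=
  (TensorProduct.lid K X).toLinearMap ∘ₗ (((bC K C).coord i).rTensor X)

omit [Coalgebra K C] in
theorem cf_tmul (i : BI K C) {X : Type u} [AddCommGroup X] [Module K X] (c : C) (x : X) :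
    cf i X (c ⊗ₜ x) = (bC K C).coord i c • x := by
  simp [cf]

omit [Coalgebra K C] in
theorem cf_ext {X : Type u} [AddCommGroup X] [Module K X] {z : C ⊗[K] X}
    (h : ∀ i, cf i X z = 0) : z = 0 := by
  classical
  have key : ∀ (z : C ⊗[K] X) i, TensorProduct.equivFinsuppOfBasisLeft (bC K C) z i =
      cf i X z := by
    intro z i
    induction z with
    | zero => simp
    | tmul c x => simp [cf_tmul]
    | add x y hx hy => simp only [map_add, Finsupp.add_apply, hx, hy]
  apply (TensorProduct.equivFinsuppOfBasisLeft (N := X) (bC K C)).injective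
  ext i
  rw [key, h, map_zero]; rfl

omit [Coalgebra K C] in
theorem cf_lTensor (i : BI K C) {X Y : Type u} [AddCommGroup X] [Module K X] [AddCommGroup Y]
    [Module K Y] (f : X →ₗ[K] Y) (z : C ⊗[K] X) : cf i Y (f.lTensor C z) = f (cf i X z) := by
  induction z with
  | zero => simp
  | tmul c x => simp [cf_tmul]
  | add x y hx hy => simp only [map_add, hx, hy]

/-- The coefficient operators of a comodule. -/
noncomputable def coef (X : Comod K C) : Option (BI K C) → X.carrier →ₗ[K] X.carrier
  | some i => cf i X.carrier ∘ₗ X.coact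
  | none => 0

theorem coef_comm {X Y : Comod K C} (f : X ⟶ Y) (o : Option (BI K C)) (x : X.carrier) :
    Comod.Hom.lin f (coef X o x) = coef Y o (Comod.Hom.lin f x) := by
  rcases o with _ | i
  · simp [coef]
  · simp only [coef, LinearMap.comp_apply]
    rw [← cf_lTensor]
    have h := congrArg (fun g => g x) (Comod.lin_comm f)
    exact congrArg _ h

theorem coef_hom {X Y : Comod K C} (f : X.carrier →ₗ[K] Y.carrier)
    (h : ∀ o x, f (coef X o x) = coef Y o (f x)) : (f.lTensor C) ∘ₗ X.coact = Y.coact ∘ₗ f := by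
  apply LinearMap.ext
  intro x
  rw [← sub_eq_zero]
  apply cf_ext
  intro i
  rw [map_sub, LinearMap.comp_apply, cf_lTensor, LinearMap.comp_apply, sub_eq_zero]
  exact h (some i) x

end Coeff

section Functor

variable {K : Type u} [Field K] {C : Type u} [AddCommGroup C] [Module K C] [Coalgebra K C]
  {R : Type u} [Ring R] [Algebra K R] (Λ : Ladder (BI K C)) (B : BrickPair K R (Fin 9))

/-- the object part -/
abbrev objV (X : Comod K C) : Type u :=
  B.V (J Λ →₀ X.carrier) (theta Λ (coef X))

/-- the morphism part -/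
noncomputable def mapVV {X Y : Comod K C} (f : X ⟶ Y) : objV Λ B X →ₗ[R] objV Λ B Y :=
  B.mapV _ _ (Finsupp.mapRange.linearMap (Comod.Hom.lin f))
    (fun i u => (theta_mapRange Λ (coef X) (coef Y) (Comod.Hom.lin f) (coef_comm f) i u).symm)

theorem mapVV_apply {X Y : Comod K C} (f : X ⟶ Y) (v : objV Λ B X) :
    mapVV Λ B f v = ((((Finsupp.mapRange.linearMap (Comod.Hom.lin f)).lTensor B.N₂) v.1,
      ((Finsupp.mapRange.linearMap (Comod.Hom.lin f)).lTensor B.N₁) v.2) : _ × _) := rfl

/-- The functor. -/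
noncomputable def Fun : Comod K C ⥤ ModuleCat.{u} R where
  obj X := ModuleCat.of R (objV Λ B X)
  map f := ModuleCat.ofHom (mapVV Λ B f)
  map_id X := by
    apply ModuleCat.hom_ext
    apply LinearMap.ext
    intro v
    change mapVV Λ B (𝟙 X) v = v
    rw [mapVV_apply, Comod.lin_id]
    have h : (Finsupp.mapRange.linearMap (LinearMap.id : X.carrier →ₗ[K] X.carrier) :
      (J Λ →₀ X.carrier) →ₗ[K] (J Λ →₀ X.carrier)) = LinearMap.id := by
      ext; simp
    rw [h]
    simp
  map_comp {X Y Z} f g := by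
    apply ModuleCat.hom_ext
    apply LinearMap.ext
    intro v
    change mapVV Λ B (f ≫ g) v = mapVV Λ B g (mapVV Λ B f v)
    rw [mapVV_apply, mapVV_apply, mapVV_apply, Comod.lin_comp]
    have h : (Finsupp.mapRange.linearMap (Comod.Hom.lin g ∘ₗ Comod.Hom.lin f) :
      (J Λ →₀ X.carrier) →ₗ[K] (J Λ →₀ Z.carrier)) =
      Finsupp.mapRange.linearMap (Comod.Hom.lin g) ∘ₗ
        Finsupp.mapRange.linearMap (Comod.Hom.lin f) := by
      ext; simp
    rw [h, LinearMap.lTensor_comp, LinearMap.lTensor_comp]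
    rfl

theorem Fun_linear : LinearFun (Fun Λ B (C := C)) := by
  intro X Y a b f g h hfg' v
  have hfg : Comod.Hom.lin h = a • Comod.Hom.lin f + b • Comod.Hom.lin g :=
    LinearMap.ext hfg'
  change mapVV Λ B h v = (algebraMap K R a) • (mapVV Λ B f v) +
    (algebraMap K R b) • (mapVV Λ B g v)
  rw [algebraMap_smul, algebraMap_smul, mapVV_apply, mapVV_apply, mapVV_apply, hfg]
  have h : (Finsupp.mapRange.linearMap (a • Comod.Hom.lin f + b • Comod.Hom.lin g) :
    (J Λ →₀ X.carrier) →ₗ[K] (J Λ →₀ Y.carrier)) =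
    a • Finsupp.mapRange.linearMap (Comod.Hom.lin f) +
      b • Finsupp.mapRange.linearMap (Comod.Hom.lin g) := by
    ext; simp
  rw [h, LinearMap.lTensor_add, LinearMap.lTensor_add, LinearMap.lTensor_smul,
    LinearMap.lTensor_smul, LinearMap.lTensor_smul, LinearMap.lTensor_smul]
  rfl

theorem Fun_additive : (Fun Λ B (C := C)).Additive where
  map_add {X Y} f g := by
    apply ModuleCat.hom_ext
    apply LinearMap.ext
    intro v
    have h := Fun_linear Λ B X Y 1 1 f g (f + g) (fun x => by simp) v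
    rw [h, map_one, one_smul, one_smul]
    rfl

theorem Fun_faithful : (Fun Λ B).Faithful where
  map_injective {X Y f g} h := by
    have h1 : mapVV Λ B f = mapVV Λ B g := congrArg ModuleCat.Hom.hom h
    have h2 := B.mapV_injective _ _ h1
    apply Comod.hom_ext
    ext x
    have h3 := congrArg (fun k => k (Finsupp.single J.st x) J.st) h2
    simpa using h3

theorem Fun_full : (Fun Λ B).Full where
  map_surjective {X Y} f := by
    obtain ⟨h, hh, hf⟩ := B.full (theta Λ (coef X)) (theta Λ (coef Y)) 0 rfl rfl f.hom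
    obtain ⟨f₀, hf₀, hf₀'⟩ := rigid Λ (coef X) (coef Y) h hh
    refine ⟨Comod.homMk f₀ (coef_hom f₀ hf₀), ?_⟩
    apply ModuleCat.hom_ext
    rw [hf]
    subst hf₀'
    rfl

theorem exact_mapRange {J' X Y Z : Type u} [AddCommGroup X] [Module K X] [AddCommGroup Y]
    [Module K Y] [AddCommGroup Z] [Module K Z] (f : X →ₗ[K] Y) (g : Y →ₗ[K] Z)
    (hi : Function.Injective f) (he : Function.Exact f g) :
    Function.Exact (Finsupp.mapRange.linearMap f : (J' →₀ X) →ₗ[K] (J' →₀ Y))
      (Finsupp.mapRange.linearMap g : (J' →₀ Y) →ₗ[K] (J' →₀ Z)) := by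
  obtain ⟨r, hr⟩ := LinearMap.exists_leftInverse_of_injective f (LinearMap.ker_eq_bot.2 hi)
  have hr' : ∀ x, r (f x) = x := fun x => congrArg (fun k => k x) hr
  intro v
  constructor
  · intro h
    refine ⟨Finsupp.mapRange.linearMap r v, ?_⟩
    ext j
    have h1 : g (v j) = 0 := by
      have := congrArg (fun w => w j) h
      simpa using this
    obtain ⟨x, hx⟩ := (he _).1 h1
    simp only [Finsupp.mapRange.linearMap_apply, Finsupp.mapRange_apply]
    rw [← hx, hr']
  · rintro ⟨w, rfl⟩
    ext j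
    simp only [Finsupp.mapRange.linearMap_apply, Finsupp.mapRange_apply, Finsupp.coe_zero,
      Pi.zero_apply]
    exact (he _).2 ⟨w j, rfl⟩

theorem Fun_exact {X Y Z : Comod K C} (f : X ⟶ Y) (g : Y ⟶ Z) (h : ComodShortEx f g) :
    ShortEx ((Fun Λ B).map f) ((Fun Λ B).map g) := by
  obtain ⟨hi, he, hs⟩ := h
  have hi' : Function.Injective (Finsupp.mapRange.linearMap (Comod.Hom.lin f) :
      (J Λ →₀ X.carrier) →ₗ[K] (J Λ →₀ Y.carrier)) :=
    Finsupp.mapRange_injective _ (map_zero _) hi
  have hs' : Function.Surjective (Finsupp.mapRange.linearMap (Comod.Hom.lin g) :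
      (J Λ →₀ Y.carrier) →ₗ[K] (J Λ →₀ Z.carrier)) :=
    Finsupp.mapRange_surjective _ (map_zero _) hs
  have he' := exact_mapRange (J' := J Λ) (Comod.Hom.lin f) (Comod.Hom.lin g) hi he
  have e1 := lTensor_exact B.N₁ he' hs'
  have e2 := lTensor_exact B.N₂ he' hs'
  refine ⟨?_, ?_, ?_⟩
  · change Function.Injective (mapVV Λ B f)
    intro v w hvw
    rw [mapVV_apply, mapVV_apply] at hvw
    have i1 := Module.Flat.lTensor_preserves_injective_linearMap (M := B.N₁) _ hi'
    have i2 := Module.Flat.lTensor_preserves_injective_linearMap (M := B.N₂) _ hi'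
    exact Prod.ext (i2 (congrArg Prod.fst hvw)) (i1 (congrArg Prod.snd hvw))
  · change Function.Exact (mapVV Λ B f) (mapVV Λ B g)
    intro v
    constructor
    · intro hv
      rw [mapVV_apply] at hv
      obtain ⟨w2, hw2⟩ := (e2 _).1 (congrArg Prod.fst hv)
      obtain ⟨w1, hw1⟩ := (e1 _).1 (congrArg Prod.snd hv)
      refine ⟨(w2, w1), ?_⟩
      rw [mapVV_apply]
      exact Prod.ext hw2 hw1
    · rintro ⟨w, rfl⟩
      rw [mapVV_apply, mapVV_apply]
      exact Prod.ext ((e2 _).2 ⟨_, rfl⟩) ((e1 _).2 ⟨_, rfl⟩)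
  · change Function.Surjective (mapVV Λ B g)
    intro v
    obtain ⟨w2, hw2⟩ := LinearMap.lTensor_surjective B.N₂ hs' v.1
    obtain ⟨w1, hw1⟩ := LinearMap.lTensor_surjective B.N₁ hs' v.2
    exact ⟨(w2, w1), by rw [mapVV_apply]; exact Prod.ext hw2 hw1⟩

end Functor

section Split

variable {K : Type u} [Field K] {C : Type u} [AddCommGroup C] [Module K C] [Coalgebra K C]

/-- A retract of the underlying space of a comodule whose idempotent is a comodule map. -/
noncomputable def retractComod (X : Comod K C) (V : Type u) [AddCommGroup V] [Module K V]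
    (i : V →ₗ[K] X.carrier) (p : X.carrier →ₗ[K] V) (hpi : p ∘ₗ i = LinearMap.id)
    (he : ((i ∘ₗ p).lTensor C) ∘ₗ X.coact = X.coact ∘ₗ (i ∘ₗ p)) : Comod K C where
  carrier := V
  coact := (p.lTensor C) ∘ₗ X.coact ∘ₗ i
  isCoaction := by
    intro v
    refine ⟨?_, ?_⟩
    · change TensorProduct.assoc K C C V
          ((Coalgebra.comul (R := K) (A := C)).rTensor V _) = _
      have h1 : ∀ z : C ⊗[K] X.carrier,
          TensorProduct.assoc K C C V
            ((Coalgebra.comul (R := K) (A := C)).rTensor V ((p.lTensor C) z)) =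
          ((p.lTensor C).lTensor C) (TensorProduct.assoc K C C X.carrier
            ((Coalgebra.comul (R := K) (A := C)).rTensor X.carrier z)) := by
        intro z
        induction z with
        | zero => simp
        | tmul c x =>
          simp only [LinearMap.lTensor_tmul, LinearMap.rTensor_tmul]
          generalize (Coalgebra.comul (R := K) (A := C)) c = w
          induction w with
          | zero => simp
          | tmul a b => simp
          | add a b ha hb => simp only [TensorProduct.add_tmul, map_add, ha, hb]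
        | add x y hx hy => simp only [map_add, hx, hy]
      have hpi' : ∀ v, p (i v) = v := fun v => congrArg (fun k => k v) hpi
      have he' : ∀ v : V, ((i ∘ₗ p).lTensor C) (X.coact (i v)) = X.coact (i v) := by
        intro v
        have := congrArg (fun k => k (i v)) he
        simp only [LinearMap.comp_apply, hpi'] at this
        exact this
      have h2 := (X.isCoaction (i v)).1
      rw [comulTensor] at h2
      simp only [LinearMap.comp_apply]
      rw [h1, h2]
      rw [← LinearMap.comp_apply (LinearMap.lTensor C _) (LinearMap.lTensor C p)]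
      rw [← LinearMap.comp_apply, ← LinearMap.lTensor_comp, ← LinearMap.lTensor_comp]
      conv_lhs => rw [← he' v]
      rw [← LinearMap.comp_apply, ← LinearMap.lTensor_comp]
      congr 2
    · change TensorProduct.lid K V ((Coalgebra.counit (R := K) (A := C)).rTensor V _) = _
      have h1 : ∀ z : C ⊗[K] X.carrier,
          TensorProduct.lid K V
            ((Coalgebra.counit (R := K) (A := C)).rTensor V ((p.lTensor C) z)) =
          p (TensorProduct.lid K X.carrier
            ((Coalgebra.counit (R := K) (A := C)).rTensor X.carrier z)) := by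
        intro z
        induction z with
        | zero => simp
        | tmul c x => simp
        | add x y hx hy => simp only [map_add, hx, hy]
      have hpi' : ∀ v, p (i v) = v := fun v => congrArg (fun k => k v) hpi
      have h2 := (X.isCoaction (i v)).2
      rw [counitTensor] at h2
      simp only [LinearMap.comp_apply]
      rw [h1, h2, hpi']

/-- Idempotents split in the category of comodules. -/
theorem exists_split (X : Comod K C) (e : X ⟶ X) (he : e ≫ e = e) :
    ∃ (Y : Comod K C) (I : Y ⟶ X) (P : X ⟶ Y), I ≫ P = 𝟙 Y ∧ P ≫ I = e := by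
  let f := Comod.Hom.lin e
  have hff : f ∘ₗ f = f := congrArg Comod.Hom.lin he
  let i : LinearMap.range f →ₗ[K] X.carrier := (LinearMap.range f).subtype
  let p : X.carrier →ₗ[K] LinearMap.range f := f.rangeRestrict
  have hip : i ∘ₗ p = f := by
    ext x; rfl
  have hpi : p ∘ₗ i = LinearMap.id := by
    apply LinearMap.ext
    rintro ⟨v, w, rfl⟩
    apply Subtype.ext
    exact congrArg (fun k => k w) hff
  have hc : ((i ∘ₗ p).lTensor C) ∘ₗ X.coact = X.coact ∘ₗ (i ∘ₗ p) := by
    rw [hip]; exact Comod.lin_comm e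
  let Y : Comod K C := retractComod X (LinearMap.range f) i p hpi hc
  have hI : (i.lTensor C) ∘ₗ Y.coact = X.coact ∘ₗ i := by
    change (i.lTensor C) ∘ₗ ((p.lTensor C) ∘ₗ X.coact ∘ₗ i) = X.coact ∘ₗ i
    rw [← LinearMap.comp_assoc, ← LinearMap.lTensor_comp, ← LinearMap.comp_assoc, hc,
      LinearMap.comp_assoc, LinearMap.comp_assoc, hpi, LinearMap.comp_id]
  have hP : (p.lTensor C) ∘ₗ X.coact = Y.coact ∘ₗ p := by
    change (p.lTensor C) ∘ₗ X.coact = ((p.lTensor C) ∘ₗ X.coact ∘ₗ i) ∘ₗ p
    rw [LinearMap.comp_assoc, LinearMap.comp_assoc, ← hc, ← LinearMap.comp_assoc,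
      ← LinearMap.lTensor_comp, ← LinearMap.comp_assoc, hpi, LinearMap.id_comp]
  refine ⟨Y, Comod.homMk i hI, Comod.homMk p hP, ?_, ?_⟩
  · apply Comod.hom_ext
    exact hpi
  · apply Comod.hom_ext
    exact hip

/-- Direct sum decompositions are coproducts. -/
noncomputable def isColimitOfSplit {A : Type*} [Category A] [Preadditive A] {X Y Z : A}
    (i : Y ⟶ X) (p : X ⟶ Y) (j : Z ⟶ X) (q : X ⟶ Z)
    (hip : i ≫ p = 𝟙 Y) (hjq : j ≫ q = 𝟙 Z) (hsum : p ≫ i + q ≫ j = 𝟙 X) :
    Limits.IsColimit (Limits.BinaryCofan.mk i j) := by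
  have hiq : i ≫ q = 0 := by
    have h1 : i ≫ (p ≫ i + q ≫ j) = i := by rw [hsum, Category.comp_id]
    rw [Preadditive.comp_add, ← Category.assoc, hip, Category.id_comp] at h1
    have h2 : i ≫ q ≫ j = 0 := left_eq_add.1 h1.symm
    calc i ≫ q = (i ≫ q ≫ j) ≫ q := by simp [hjq]
      _ = 0 := by rw [h2, Limits.zero_comp]
  have hjp : j ≫ p = 0 := by
    have h1 : j ≫ (p ≫ i + q ≫ j) = j := by rw [hsum, Category.comp_id]
    rw [Preadditive.comp_add, ← Category.assoc j q, hjq, Category.id_comp] at h1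
    have h2 : j ≫ p ≫ i = 0 := right_eq_add.1 h1.symm
    calc j ≫ p = (j ≫ p ≫ i) ≫ p := by simp [hip]
      _ = 0 := by rw [h2, Limits.zero_comp]
  refine Limits.BinaryCofan.IsColimit.mk _ (fun {T} f g => (show X ⟶ T from p ≫ f + q ≫ g))
    ?_ ?_ ?_
  · intro T f g
    change i ≫ (p ≫ f + q ≫ g) = f
    rw [Preadditive.comp_add, ← Category.assoc, hip, ← Category.assoc, hiq]
    simp
  · intro T f g
    change j ≫ (p ≫ f + q ≫ g) = g
    rw [Preadditive.comp_add, ← Category.assoc, hjp, ← Category.assoc, hjq]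
    simp
  · intro T f g m h1 h2
    change X ⟶ T at m
    change i ≫ m = f at h1
    change j ≫ m = g at h2
    change m = p ≫ f + q ≫ g
    rw [← h1, ← h2, ← Category.assoc, ← Category.assoc, ← Preadditive.add_comp, hsum,
      Category.id_comp]

/-- A full and faithful additive functor from comodules preserves indecomposability. -/
theorem indec_of_full_faithful {A : Type*} [Category A] [Preadditive A] (F : Comod K C ⥤ A)
    [F.Additive] [F.Full] [F.Faithful] (X : Comod K C) (hX : Indec X) : Indec (F.obj X) := by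
  refine ⟨?_, ?_⟩
  · intro h
    apply hX.1
    rw [Limits.IsZero.iff_id_eq_zero] at h ⊢
    apply F.map_injective
    rw [F.map_id, h, Functor.map_zero]
  · rintro Y Z i j ⟨hc⟩
    obtain ⟨p, hp1, hp2⟩ := Limits.BinaryCofan.IsColimit.desc' hc (𝟙 Y) (0 : Z ⟶ Y)
    obtain ⟨q, hq1, hq2⟩ := Limits.BinaryCofan.IsColimit.desc' hc (0 : Y ⟶ Z) (𝟙 Z)
    change F.obj X ⟶ Y at p
    change F.obj X ⟶ Z at q
    change i ≫ p = 𝟙 Y at hp1
    change j ≫ p = 0 at hp2
    change i ≫ q = 0 at hq1
    change j ≫ q = 𝟙 Z at hq2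
    have hsum : p ≫ i + q ≫ j = 𝟙 (F.obj X) := by
      apply Limits.BinaryCofan.IsColimit.hom_ext hc
      · change i ≫ (p ≫ i + q ≫ j) = i ≫ 𝟙 (F.obj X)
        rw [Preadditive.comp_add, ← Category.assoc, ← Category.assoc, hp1, hq1]
        simp
      · change j ≫ (p ≫ i + q ≫ j) = j ≫ 𝟙 (F.obj X)
        rw [Preadditive.comp_add, ← Category.assoc, ← Category.assoc, hp2, hq2]
        simp
    obtain ⟨e, he⟩ := F.map_surjective (p ≫ i)
    have hee : e ≫ e = e := by
      apply F.map_injective
      rw [F.map_comp, he, Category.assoc, ← Category.assoc i p, hp1, Category.id_comp]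
    have hee' : (𝟙 X - e) ≫ (𝟙 X - e) = 𝟙 X - e := by
      rw [Preadditive.sub_comp, Preadditive.comp_sub, Preadditive.comp_sub, hee]
      simp
    obtain ⟨Y', I, P, hIP, hPI⟩ := exists_split X e hee
    obtain ⟨Z', J', Q, hJQ, hQJ⟩ := exists_split X (𝟙 X - e) hee'
    rcases hX.2 Y' Z' I J' ⟨isColimitOfSplit I P J' Q hIP hJQ (by rw [hPI, hQJ]; abel)⟩ with h | h
    · left
      have he0 : e = 0 := by
        rw [← hPI, h.eq_of_src I 0, Limits.comp_zero]
      rw [Limits.IsZero.iff_id_eq_zero]
      calc 𝟙 Y = (i ≫ p) ≫ (i ≫ p) := by rw [hp1]; simp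
        _ = i ≫ (p ≫ i) ≫ p := by simp
        _ = 0 := by rw [← he, he0]; simp
    · right
      have he0 : 𝟙 X - e = 0 := by
        rw [← hQJ, h.eq_of_src J' 0, Limits.comp_zero]
      have he1 : e = 𝟙 X := (sub_eq_zero.1 he0).symm
      have hqj : q ≫ j = 0 := by
        rw [he1, F.map_id] at he
        rw [← he] at hsum
        exact left_eq_add.1 hsum.symm
      rw [Limits.IsZero.iff_id_eq_zero]
      calc 𝟙 Z = (j ≫ q) ≫ (j ≫ q) := by rw [hq2]; simp
        _ = j ≫ (q ≫ j) ≫ q := by simp
        _ = 0 := by rw [hqj]; simp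

end Split

/-- The main theorem. -/
theorem main (K : Type u) [Field K] (C : Type u) [AddCommGroup C] [Module K C] [Coalgebra K C]
    (W : Type u) [Ring W] [Algebra K W] (hW : FullyWild K W) :
    ∃ F : Comod K C ⥤ ModuleCat.{u} Wᵐᵒᵖ,
      LinearFun F ∧
      (∀ (X Y Z : Comod K C) (f : X ⟶ Y) (g : Y ⟶ Z), ComodShortEx f g →
        ShortEx (F.map f) (F.map g)) ∧
      (∀ X, Indec X → Indec (F.obj X)) ∧
      (∀ X Y, Nonempty (F.obj X ≅ F.obj Y) → Nonempty (X ≅ Y)) ∧
      F.Full ∧ F.Faithful := by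
  obtain ⟨B⟩ := exists_brick K W hW
  obtain ⟨Λ⟩ := exists_ladder (BI K C)
  have h1 := Fun_additive Λ B (C := C)
  have h2 := Fun_linear Λ B (C := C)
  have h3 := Fun_full Λ B (C := C)
  have h4 := Fun_faithful Λ B (C := C)
  refine ⟨Fun Λ B, h2, ?_, ?_, ?_, h3, h4⟩
  · intro X Y Z f g h
    exact Fun_exact Λ B f g h
  · intro X hX
    exact indec_of_full_faithful _ X hX
  · rintro X Y ⟨e⟩
    exact ⟨(Fun Λ B).preimageIso e⟩

end Pool.Agent.Helper45.Wild
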